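import Pool.Agent.E8helper13.RD.Net

/-!
The number of zero patterns of polynomials of degree at most two (the linear algebra argument of Rónyai,
Babai and Ganapathy), and its use with the double sampling bound.
-/

open Finset MvPolynomial

namespace E8helper13.RD

set_option linter.unusedSectionVars false
set_option linter.unusedDecidableInType false

variable {α : Type*} [DecidableEq α]

/-- exponents of degree at most `D` -/
def expo (σ : Type*) [Fintype σ] [DecidableEq σ] (D : ℕ) : Finset (σ → ℕ) :=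
  (Fintype.piFinset (fun _ => Finset.range (D + 1))).filter (fun m => ∑ i, m i ≤ D)

lemma mem_expo {σ : Type*} [Fintype σ] [DecidableEq σ] {D : ℕ} {m : σ → ℕ} :
    m ∈ expo σ D ↔ ∑ i, m i ≤ D := by
  unfold expo
  rw [Finset.mem_filter, Fintype.mem_piFinset]
  constructor
  · exact fun h => h.2
  · intro h
    refine ⟨fun i => ?_, h⟩
    rw [Finset.mem_range]
    have := Finset.single_le_sum (f := m) (fun j _ => Nat.zero_le _) (Finset.mem_univ i)
    omega

lemma card_expo_le (σ : Type*) [Fintype σ] [DecidableEq σ] (D : ℕ) {u : ℝ} (h0 : 0 < u) (h1 : u < 1) :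
    ((expo σ D).card : ℝ) * u ^ D ≤ (1 / (1 - u)) ^ Fintype.card σ := by
  have hg : ∑ j ∈ Finset.range (D + 1), u ^ j ≤ 1 / (1 - u) := by
    rw [le_div_iff₀ (by linarith), geom_sum_mul_neg]
    have : 0 < u ^ (D + 1) := pow_pos h0 _
    linarith
  have hg0 : 0 ≤ ∑ j ∈ Finset.range (D + 1), u ^ j :=
    Finset.sum_nonneg fun j _ => (pow_pos h0 j).le
  calc ((expo σ D).card : ℝ) * u ^ D = ∑ m ∈ expo σ D, u ^ D := by
        rw [Finset.sum_const, nsmul_eq_mul]
    _ ≤ ∑ m ∈ expo σ D, ∏ i, u ^ (m i) := by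
        refine Finset.sum_le_sum fun m hm => ?_
        rw [Finset.prod_pow_eq_pow_sum]
        exact pow_le_pow_of_le_one h0.le h1.le (mem_expo.1 hm)
    _ ≤ ∑ m ∈ Fintype.piFinset (fun _ : σ => Finset.range (D + 1)), ∏ i, u ^ (m i) := by
        refine Finset.sum_le_sum_of_subset_of_nonneg (Finset.filter_subset _ _) ?_
        intro m _ _
        exact Finset.prod_nonneg fun i _ => (pow_pos h0 _).le
    _ = ∏ _i : σ, ∑ j ∈ Finset.range (D + 1), u ^ j := by
        rw [Finset.prod_univ_sum]
    _ ≤ ∏ _i : σ, (1 / (1 - u)) := Finset.prod_le_prod (fun _ _ => hg0) (fun _ _ => hg)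
    _ = (1 / (1 - u)) ^ Fintype.card σ := by
        rw [Finset.prod_const, Finset.card_univ]

/-- Zero patterns. -/
theorem traces_card_le {σ : Type*} [Fintype σ] [DecidableEq σ] (Ω : Finset α)
    (q : α → MvPolynomial σ ℝ) (hq : ∀ e, (q e).totalDegree ≤ 2)
    (bad : (σ → ℝ) → Finset α) (hbad : ∀ x e, e ∈ bad x ↔ e ∈ Ω ∧ eval x (q e) ≠ 0)
    (Y : Finset α) (hY : Y ⊆ Ω) :
    (traces bad Y).card ≤ (expo σ (2 * Y.card)).card := by
  classical
  have hex : ∀ T : traces bad Y, ∃ x, bad x ∩ Y = T.1 := by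
    rintro ⟨T, hT⟩
    unfold traces at hT
    exact (Finset.mem_filter.1 hT).2
  choose x hx using hex
  have hsub : ∀ T : traces bad Y, T.1 ⊆ Y := by
    intro T
    rw [← hx T]; exact Finset.inter_subset_right
  set g : traces bad Y → MvPolynomial σ ℝ := fun T => ∏ e ∈ T.1, q e with hg
  have hdeg : ∀ T, (g T).totalDegree ≤ 2 * Y.card := by
    intro T
    refine (MvPolynomial.totalDegree_finsetProd _ _).trans ?_
    refine (Finset.sum_le_card_nsmul _ _ 2 (fun e _ => hq e)).trans ?_
    have := Finset.card_le_card (hsub T)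
    simp only [smul_eq_mul]
    omega
  have hmain : ∀ T, eval (x T) (g T) ≠ 0 := by
    intro T
    simp only [hg, map_prod]
    refine Finset.prod_ne_zero_iff.2 ?_
    intro e he
    rw [← hx T] at he
    exact ((hbad _ _).1 (Finset.mem_inter.1 he).1).2
  have hoff : ∀ T S : traces bad Y, ¬ S.1 ⊆ T.1 → eval (x T) (g S) = 0 := by
    intro T S h
    obtain ⟨e, heS, heT⟩ := Finset.not_subset.1 h
    simp only [hg, map_prod]
    refine Finset.prod_eq_zero heS ?_
    by_contra hne
    apply heT
    rw [← hx T]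
    exact Finset.mem_inter.2 ⟨(hbad _ _).2 ⟨hY (hsub S heS), hne⟩, hsub S heS⟩
  -- linear independence
  have hzero : ∀ c : traces bad Y → ℝ, (∑ T, c T • g T) = 0 → ∀ T, c T = 0 := by
    intro c hc
    have : ∀ k : ℕ, ∀ T : traces bad Y, T.1.card = k → c T = 0 := by
      intro k
      induction k using Nat.strong_induction_on with
      | _ k ih =>
        intro T hT
        have h1 : eval (x T) (∑ S, c S • g S) = 0 := by rw [hc]; simp
        rw [map_sum] at h1
        rw [Finset.sum_eq_single T] at h1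
        · rw [MvPolynomial.smul_eval] at h1
          rcases mul_eq_zero.1 h1 with h | h
          · exact h
          · exact absurd h (hmain T)
        · intro S _ hST
          rw [MvPolynomial.smul_eval]
          by_cases hs : S.1 ⊆ T.1
          · have hlt : S.1.card < k := by
              rw [← hT]
              exact Finset.card_lt_card (Finset.ssubset_iff_subset_ne.2 ⟨hs, fun h => hST (Subtype.ext h)⟩)
            rw [ih _ hlt S rfl]; ring
          · rw [hoff T S hs]; ring
        · intro h; exact absurd (Finset.mem_univ T) h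
    intro T
    exact this _ T rfl
  -- coefficient vectors
  set w : traces bad Y → (expo σ (2 * Y.card) → ℝ) :=
    fun T m => coeff (Finsupp.equivFunOnFinite.symm m.1) (g T) with hw
  have hli : LinearIndependent ℝ w := by
    rw [Fintype.linearIndependent_iff]
    intro c hc
    apply hzero c
    ext m
    rw [MvPolynomial.coeff_sum, MvPolynomial.coeff_zero]
    by_cases hm : ∑ i, m i ≤ 2 * Y.card
    · have h1 := congrFun hc ⟨m, mem_expo.2 hm⟩
      rw [Finset.sum_apply] at h1
      rw [← h1.trans (by simp : (0 : expo σ (2 * Y.card) → ℝ) ⟨m, mem_expo.2 hm⟩ = 0)]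
      refine Finset.sum_congr rfl ?_
      intro T _
      rw [MvPolynomial.coeff_smul, Pi.smul_apply]
      simp only [hw]
      congr 2
      ext i
      rfl
    · refine Finset.sum_eq_zero ?_
      intro T _
      rw [MvPolynomial.coeff_smul, MvPolynomial.coeff_eq_zero_of_totalDegree_lt, smul_zero]
      have h2 : ∑ i ∈ m.support, m i = ∑ i, m i := by
        refine Finset.sum_subset (Finset.subset_univ _) ?_
        intro i _ hi
        exact Finsupp.notMem_support_iff.1 hi
      rw [h2]
      have := hdeg T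
      omega
  have := hli.fintype_card_le_finrank
  rwa [Module.finrank_fintype_fun_eq_card, Fintype.card_coe, Fintype.card_coe] at this

/-- The miss probability for a family of zero patterns. -/
theorem miss_le {σ : Type*} [Fintype σ] [DecidableEq σ] (Ω : Finset α)
    (q : α → MvPolynomial σ ℝ) (hq : ∀ e, (q e).totalDegree ≤ 2)
    (bad : (σ → ℝ) → Finset α) (hbad : ∀ x e, e ∈ bad x ↔ e ∈ Ω ∧ eval x (q e) ≠ 0)
    (M : ℕ) {p u : ℝ} (h0 : 0 ≤ p) (h1 : p ≤ 1 / 2) (hu0 : 0 < u) (hu1 : u < 1) :
    pr Ω p (fun P => ∃ x, M ≤ (bad x).card ∧ Disjoint (bad x) P) ≤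
      (1 - p) ^ M * ((1 / (1 - u)) ^ Fintype.card σ * Real.exp (2 * p * (1 / u ^ 2 - 1) * Ω.card)) := by
  have hb : ∀ x, bad x ⊆ Ω := fun x e he => ((hbad x e).1 he).1
  refine (double_sampling Ω bad hb M h0 h1).trans ?_
  refine mul_le_mul_of_nonneg_left ?_ (pow_nonneg (by linarith) _)
  have h2p : 0 ≤ 1 - 2 * p := by linarith
  have hK : 0 < (1 / (1 - u)) ^ Fintype.card σ := pow_pos (by positivity [sub_pos.2 hu1]) _
  calc ∑ Y ∈ Ω.powerset, (2 * p) ^ Y.card * (1 - 2 * p) ^ (Ω.card - Y.card) * ((traces bad Y).card : ℝ)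
      ≤ ∑ Y ∈ Ω.powerset, (2 * p) ^ Y.card * (1 - 2 * p) ^ (Ω.card - Y.card)
          * ((1 / (1 - u)) ^ Fintype.card σ * (1 / u ^ 2) ^ Y.card) := by
        refine Finset.sum_le_sum ?_
        intro Y hY
        refine mul_le_mul_of_nonneg_left ?_ (mul_nonneg (pow_nonneg (by linarith) _) (pow_nonneg h2p _))
        have e1 := traces_card_le Ω q hq bad hbad Y (Finset.mem_powerset.1 hY)
        have e2 := card_expo_le σ (2 * Y.card) hu0 hu1
        have e3 : ((traces bad Y).card : ℝ) ≤ (expo σ (2 * Y.card)).card := by exact_mod_cast e1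
        have e4 : 0 < u ^ (2 * Y.card) := pow_pos hu0 _
        have e5 : (1 / u ^ 2) ^ Y.card = 1 / u ^ (2 * Y.card) := by
          rw [one_div_pow, ← pow_mul]
        rw [e5, mul_one_div, le_div_iff₀ e4]
        exact (mul_le_mul_of_nonneg_right e3 e4.le).trans e2
    _ = (1 / (1 - u)) ^ Fintype.card σ *
          ∑ Y ∈ Ω.powerset, (2 * p * (1 / u ^ 2)) ^ Y.card * (1 - 2 * p) ^ (Ω.card - Y.card) := by
        rw [Finset.mul_sum]
        refine Finset.sum_congr rfl ?_
        intro Y _
        rw [mul_pow (2 * p)]; ring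
    _ = (1 / (1 - u)) ^ Fintype.card σ * (2 * p * (1 / u ^ 2) + (1 - 2 * p)) ^ Ω.card := by
        rw [Finset.sum_pow_mul_eq_add_pow]
    _ ≤ (1 / (1 - u)) ^ Fintype.card σ * Real.exp (2 * p * (1 / u ^ 2 - 1) * Ω.card) := by
        refine mul_le_mul_of_nonneg_left ?_ hK.le
        have : 2 * p * (1 / u ^ 2) + (1 - 2 * p) ≤ Real.exp (2 * p * (1 / u ^ 2 - 1)) := by
          have := Real.add_one_le_exp (2 * p * (1 / u ^ 2 - 1))
          linarith
        have h3 : 0 ≤ 2 * p * (1 / u ^ 2) + (1 - 2 * p) := by positivity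
        calc (2 * p * (1 / u ^ 2) + (1 - 2 * p)) ^ Ω.card ≤ (Real.exp (2 * p * (1 / u ^ 2 - 1))) ^ Ω.card :=
              pow_le_pow_left₀ h3 this _
          _ = Real.exp (2 * p * (1 / u ^ 2 - 1) * Ω.card) := by
              rw [← Real.exp_nat_mul]; ring_nf

end E8helper13.RD
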