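import Mathlib

/-!
Definitions for MP_78cba5_pr: reconstruction of point sets from random distances.
-/

namespace RandomDistances

/-- The unordered pairs of distinct labels. -/
def pairs (n : ℕ) : Finset (Sym2 (Fin n)) := Finset.univ.filter (fun e => ¬ e.IsDiag)

open Classical in
/-- The probability that the set `P` of revealed pairs has the property `A` when every pair of distinct
labels is revealed independently with probability `p`. -/
noncomputable def prob (n : ℕ) (p : ℝ) (A : Finset (Sym2 (Fin n)) → Prop) : ℝ :=
  ∑ P ∈ (pairs n).powerset.filter (fun P => A P),
    p ^ P.card * (1 - p) ^ ((pairs n).card - P.card)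

/-- The set `U` of labels is reconstructible from the pairs `P` of the configuration `v`: every map `x` that
preserves the distances of the pairs in `P` preserves all the distances inside `U`. -/
def Reconstructible {n d : ℕ} (v : Fin n → EuclideanSpace ℝ (Fin d)) (P : Finset (Sym2 (Fin n)))
    (U : Finset (Fin n)) : Prop :=
  ∀ x : Fin n → EuclideanSpace ℝ (Fin d),
    (∀ i j, s(i, j) ∈ P → dist (x i) (x j) = dist (v i) (v j)) →
      ∀ i ∈ U, ∀ j ∈ U, dist (x i) (x j) = dist (v i) (v j)

end RandomDistances
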