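import Pool.Agent.E8helper13.RD.Geo

/-!
The deterministic part: a map that preserves almost all distances preserves all the distances of a large
set, and its complement is detached in the graph of the revealed pairs.
-/

open Finset

namespace E8helper13.RD

set_option linter.unusedSectionVars false
set_option linter.unusedDecidableInType false
set_option linter.unusedFintypeInType false

variable {E : Type*} [NormedAddCommGroup E] [InnerProductSpace ℝ E] [FiniteDimensional ℝ E]
variable {ι : Type*} [Fintype ι] [DecidableEq ι]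

open Classical in
/-- The graph of the pairs whose distance is not preserved. -/
noncomputable def badGraph (v x : ι → E) : SimpleGraph ι where
  Adj i j := ¬ Pres v x i j
  symm := ⟨fun _ _ h h' => h h'.symm⟩
  loopless := ⟨fun i h => h (Pres.refl v x i)⟩

/-- The points in a flat. -/
noncomputable def inFlat (v : ι → E) (L : AffineSubspace ℝ E) : Finset ι :=
  @Finset.filter ι (fun i => v i ∈ L) (Classical.decPred _) Finset.univ

lemma mem_inFlat {v : ι → E} {L : AffineSubspace ℝ E} {i : ι} : i ∈ inFlat v L ↔ v i ∈ L := by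
  classical
  unfold inFlat
  rw [@Finset.mem_filter _ _ (Classical.decPred _)]
  exact ⟨fun h => h.2, fun h => ⟨Finset.mem_univ _, h⟩⟩

/-- `L` is a good flat: every proper subflat misses at least `t` of its points. -/
def GoodFlat (v : ι → E) (t : ℝ) (L : AffineSubspace ℝ E) : Prop :=
  ∀ L', L' < L → ((inFlat v L').card : ℝ) + t ≤ (inFlat v L).card

/-- `B` is detached from the rest of the points of `L`. -/
def Detached (v : ι → E) (L : AffineSubspace ℝ E) (P : Finset (Sym2 ι)) (B : Finset ι) : Prop :=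
  B ⊆ inFlat v L ∧ ∀ b ∈ B, affineSpan ℝ (v '' {a | a ∈ inFlat v L ∧ a ∉ B ∧ s(a, b) ∈ P}) ≠ L

lemma span_le {v : ι → E} {L : AffineSubspace ℝ E} {S : Set ι} (h : ∀ i ∈ S, v i ∈ L) :
    affineSpan ℝ (v '' S) ≤ L := by
  rw [affineSpan_le]
  rintro _ ⟨i, hi, rfl⟩
  exact h i hi

/-- existence of good flats -/
lemma exists_goodFlat_aux (v : ι → E) {t : ℝ} (ht : 0 ≤ t) (k : ℕ) :
    ∀ L : AffineSubspace ℝ E, (L = ⊥ ∨ Module.finrank ℝ L.direction + 1 ≤ k) →
      ∃ L₀ ≤ L, GoodFlat v t L₀ ∧ ((inFlat v L).card : ℝ) ≤ (inFlat v L₀).card + k * t := by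
  induction k with
  | zero =>
    rintro L (rfl | h)
    · refine ⟨⊥, le_rfl, ?_, by simp⟩
      intro L' hL'
      exact absurd hL' not_lt_bot
    · omega
  | succ k ih =>
    intro L hL
    by_cases hg : GoodFlat v t L
    · refine ⟨L, le_rfl, hg, ?_⟩
      have : 0 ≤ ((k + 1 : ℕ) : ℝ) * t := by positivity
      linarith
    · unfold GoodFlat at hg
      push Not at hg
      obtain ⟨L', hlt, hc⟩ := hg
      have hL'k : L' = ⊥ ∨ Module.finrank ℝ L'.direction + 1 ≤ k := by
        rcases hL with rfl | h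
        · exact absurd hlt not_lt_bot
        · by_cases hb : L' = ⊥
          · exact Or.inl hb
          · right
            have hn : (L' : Set E).Nonempty := by
              rw [AffineSubspace.nonempty_iff_ne_bot]; exact hb
            have := Submodule.finrank_lt_finrank_of_lt (AffineSubspace.direction_lt_of_nonempty hlt hn)
            omega
      obtain ⟨L₀, hle, hg0, hc0⟩ := ih L' hL'k
      refine ⟨L₀, hle.trans hlt.le, hg0, ?_⟩
      push_cast
      linarith

lemma exists_goodFlat (v : ι → E) {t : ℝ} (ht : 0 ≤ t) :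
    ∃ L₀ : AffineSubspace ℝ E, GoodFlat v t L₀ ∧
      ((Fintype.card ι : ℕ) : ℝ) ≤ (inFlat v L₀).card + (Module.finrank ℝ E + 1 : ℕ) * t := by
  obtain ⟨L₀, -, h1, h2⟩ := exists_goodFlat_aux v ht (Module.finrank ℝ E + 1) ⊤ (Or.inr (by
    rw [AffineSubspace.direction_top, finrank_top]))
  refine ⟨L₀, h1, ?_⟩
  have : inFlat v (⊤ : AffineSubspace ℝ E) = Finset.univ := by
    ext i
    rw [mem_inFlat]
    simp
  rw [this, Finset.card_univ] at h2
  exact h2

/-- Every finite configuration is spanned by few of its points. -/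
lemma exists_small_span (v : ι → E) (A : Finset ι) :
    ∃ F ⊆ A, F.card ≤ Module.finrank ℝ E + 1 ∧ affineSpan ℝ (v '' (F : Set ι)) = affineSpan ℝ (v '' (A : Set ι)) := by
  classical
  set 𝒮 := A.powerset.filter (fun S : Finset ι => S.card ≤ Module.finrank ℝ (vectorSpan ℝ (v '' (S : Set ι))) + 1)
    with h𝒮
  have hne : 𝒮.Nonempty := ⟨∅, by rw [h𝒮, Finset.mem_filter]; simp⟩
  obtain ⟨S, hS, hmax⟩ := Finset.exists_max_image 𝒮 Finset.card hne
  rw [h𝒮, Finset.mem_filter, Finset.mem_powerset] at hS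
  refine ⟨S, hS.1, hS.2.trans (by have := Submodule.finrank_le (vectorSpan ℝ (v '' (S : Set ι))); omega), ?_⟩
  refine le_antisymm (affineSpan_mono ℝ (Set.image_mono (Finset.coe_subset.2 hS.1))) ?_
  rw [affineSpan_le]
  rintro _ ⟨t, ht, rfl⟩
  by_contra hcon
  have htS : t ∉ S := by
    intro h
    exact hcon (mem_affineSpan ℝ (Set.mem_image_of_mem v (Finset.mem_coe.2 h)))
  have hmem : insert t S ∈ 𝒮 := by
    rw [h𝒮, Finset.mem_filter, Finset.mem_powerset]
    refine ⟨Finset.insert_subset ht hS.1, ?_⟩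
    rw [Finset.card_insert_of_notMem htS]
    rcases S.eq_empty_or_nonempty with rfl | hSn
    · simp
    · have := finrank_insert hSn hcon
      omega
  have := hmax _ hmem
  rw [Finset.card_insert_of_notMem htS] at this
  omega

open Classical in
/-- The clique lemma. -/
lemma clique_of_few_bad (v x : ι → E) {L : AffineSubspace ℝ E} {t s : ℝ} (hL : GoodFlat v t L)
    (hs : 0 ≤ s)
    (B₀ : Finset ι) (hB₀ : ∀ i ∉ B₀, ((badGraph v x).degree i : ℝ) ≤ s)
    (hcount : (B₀.card : ℝ) + (Module.finrank ℝ E + 3) * s < t) :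
    ∀ a ∈ inFlat v L \ B₀, ∀ b ∈ inFlat v L \ B₀, Pres v x a b := by
  classical
  intro a ha b hb
  set A₀ := inFlat v L \ B₀ with hA₀
  set 𝒮 := A₀.powerset.filter (fun S : Finset ι => S.card ≤ Module.finrank ℝ (vectorSpan ℝ (v '' (S : Set ι))) + 1 ∧
    (∀ i ∈ S, Pres v x a i ∧ Pres v x b i) ∧ ∀ i ∈ S, ∀ j ∈ S, Pres v x i j) with h𝒮
  have hne : 𝒮.Nonempty := ⟨∅, by rw [h𝒮, Finset.mem_filter]; simp⟩
  obtain ⟨S, hS, hmax⟩ := Finset.exists_max_image 𝒮 Finset.card hne
  rw [h𝒮, Finset.mem_filter, Finset.mem_powerset] at hS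
  obtain ⟨hSA, hSc, hSab, hSS⟩ := hS
  have hSL : ∀ i ∈ (S : Set ι), v i ∈ L := fun i hi =>
    mem_inFlat.1 (Finset.mem_sdiff.1 (hSA hi)).1
  by_cases hspan : affineSpan ℝ (v '' (S : Set ι)) = L
  · refine pres_of_span (S := (S : Set ι)) (fun i hi j hj => hSS i hi j hj) (fun i hi => (hSab i hi).1)
      (fun i hi => (hSab i hi).2) ?_
    rw [hspan]
    exact mem_inFlat.1 (Finset.mem_sdiff.1 ha).1
  · exfalso
    have hlt : affineSpan ℝ (v '' (S : Set ι)) < L := lt_of_le_of_ne (span_le hSL) hspan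
    have hg := hL _ hlt
    -- a new vertex
    set N := (insert a (insert b S)).biUnion (fun i => (badGraph v x).neighborFinset i) with hN
    have hScard : S.card ≤ Module.finrank ℝ E + 1 :=
      hSc.trans (by have := Submodule.finrank_le (vectorSpan ℝ (v '' (S : Set ι))); omega)
    have hNcard : (N.card : ℝ) ≤ (Module.finrank ℝ E + 3) * s := by
      have h1 : N.card ≤ ∑ i ∈ insert a (insert b S), (badGraph v x).degree i := by
        rw [hN]
        exact Finset.card_biUnion_le
      have h2 : ((∑ i ∈ insert a (insert b S), (badGraph v x).degree i : ℕ) : ℝ)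
          ≤ ∑ i ∈ insert a (insert b S), s := by
        push_cast
        refine Finset.sum_le_sum ?_
        intro i hi
        apply hB₀
        rcases Finset.mem_insert.1 hi with rfl | hi
        · exact (Finset.mem_sdiff.1 ha).2
        · rcases Finset.mem_insert.1 hi with rfl | hi
          · exact (Finset.mem_sdiff.1 hb).2
          · exact (Finset.mem_sdiff.1 (hSA hi)).2
      have h3 : (insert a (insert b S)).card ≤ Module.finrank ℝ E + 3 := by
        have := Finset.card_insert_le a (insert b S)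
        have := Finset.card_insert_le b S
        omega
      rw [Finset.sum_const, nsmul_eq_mul] at h2
      have h4 : ((insert a (insert b S)).card : ℝ) ≤ Module.finrank ℝ E + 3 := by exact_mod_cast h3
      calc (N.card : ℝ) ≤ ((∑ i ∈ insert a (insert b S), (badGraph v x).degree i : ℕ) : ℝ) := by
            exact_mod_cast h1
        _ ≤ _ := h2
        _ ≤ _ := mul_le_mul_of_nonneg_right h4 hs
    have hex : ∃ t' ∈ inFlat v L, t' ∉ B₀ ∪ N ∪ inFlat v (affineSpan ℝ (v '' (S : Set ι))) := by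
      by_contra hcon
      push Not at hcon
      have hsub : inFlat v L ⊆ B₀ ∪ N ∪ inFlat v (affineSpan ℝ (v '' (S : Set ι))) := hcon
      have h1 := Finset.card_le_card hsub
      have h2 := Finset.card_union_le (B₀ ∪ N) (inFlat v (affineSpan ℝ (v '' (S : Set ι))))
      have h3 := Finset.card_union_le B₀ N
      have h4 : ((inFlat v L).card : ℝ) ≤ B₀.card + N.card
          + (inFlat v (affineSpan ℝ (v '' (S : Set ι)))).card := by
        exact_mod_cast (by omega : (inFlat v L).card ≤ B₀.card + N.card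
          + (inFlat v (affineSpan ℝ (v '' (S : Set ι)))).card)
      linarith
    obtain ⟨t', ht1, ht2⟩ := hex
    rw [Finset.mem_union, Finset.mem_union, not_or, not_or] at ht2
    obtain ⟨⟨ht3, ht4⟩, ht5⟩ := ht2
    rw [mem_inFlat] at ht5
    have hpres : ∀ i ∈ insert a (insert b S), Pres v x i t' := by
      intro i hi
      by_contra hcon
      apply ht4
      rw [hN, Finset.mem_biUnion]
      exact ⟨i, hi, by rw [SimpleGraph.mem_neighborFinset]; exact hcon⟩
    have htS : t' ∉ S := by
      intro h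
      exact ht5 (mem_affineSpan ℝ (Set.mem_image_of_mem v (Finset.mem_coe.2 h)))
    have hmem : insert t' S ∈ 𝒮 := by
      rw [h𝒮, Finset.mem_filter, Finset.mem_powerset]
      refine ⟨Finset.insert_subset (Finset.mem_sdiff.2 ⟨ht1, ht3⟩) hSA, ?_, ?_, ?_⟩
      · rw [Finset.card_insert_of_notMem htS]
        rcases S.eq_empty_or_nonempty with rfl | hSn
        · simp
        · have := finrank_insert hSn ht5
          omega
      · intro i hi
        rcases Finset.mem_insert.1 hi with rfl | hi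
        · exact ⟨hpres a (by simp), hpres b (by simp)⟩
        · exact hSab i hi
      · intro i hi j hj
        have hi' := Finset.mem_insert.1 hi
        have hj' := Finset.mem_insert.1 hj
        rcases hi' with hi' | hi' <;> rcases hj' with hj' | hj'
        · rw [hi', hj']; exact Pres.refl v x _
        · rw [hi']; exact (hpres j (by simp [hj'])).symm
        · rw [hj']; exact hpres i (by simp [hi'])
        · exact hSS i hi' j hj'
    have := hmax _ hmem
    rw [Finset.card_insert_of_notMem htS] at this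
    omega

open Classical in
/-- The detached set of a consistent map with few bad pairs. -/
theorem exists_detached (v x : ι → E) {L : AffineSubspace ℝ E} {t s m : ℝ} (hL : GoodFlat v t L)
    (hs : 0 < s) (P : Finset (Sym2 ι)) (hP : ∀ i j, s(i, j) ∈ P → Pres v x i j)
    (hbad : 2 * ((badGraph v x).edgeFinset.card : ℝ) ≤ m * s)
    (hcount : m + (Module.finrank ℝ E + 3) * s < t) :
    ∃ B : Finset ι, Detached v L P B ∧ (B.card : ℝ) ≤ m ∧
      ∀ i ∈ inFlat v L, i ∉ B → ∀ j ∈ inFlat v L, j ∉ B → Pres v x i j := by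
  classical
  set B₀ : Finset ι := Finset.univ.filter (fun i => s < ((badGraph v x).degree i : ℝ)) with hB₀
  have hB₀c : (B₀.card : ℝ) ≤ m := by
    have h1 : (B₀.card : ℝ) * s ≤ ∑ i ∈ B₀, ((badGraph v x).degree i : ℝ) := by
      rw [← nsmul_eq_mul, ← Finset.sum_const]
      refine Finset.sum_le_sum ?_
      intro i hi
      exact (Finset.mem_filter.1 hi).2.le
    have h2 : ∑ i ∈ B₀, ((badGraph v x).degree i : ℝ) ≤ ∑ i, ((badGraph v x).degree i : ℝ) :=
      Finset.sum_le_sum_of_subset_of_nonneg (Finset.subset_univ _) (fun _ _ _ => Nat.cast_nonneg _)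
    have h3 : ∑ i, ((badGraph v x).degree i : ℝ) = 2 * (badGraph v x).edgeFinset.card := by
      have := (badGraph v x).sum_degrees_eq_twice_card_edges
      exact_mod_cast this
    have h4 : (B₀.card : ℝ) * s ≤ m * s := by linarith
    exact le_of_mul_le_mul_right h4 hs
  have hdeg : ∀ i ∉ B₀, ((badGraph v x).degree i : ℝ) ≤ s := by
    intro i hi
    by_contra hcon
    push Not at hcon
    exact hi (by rw [hB₀, Finset.mem_filter]; exact ⟨Finset.mem_univ _, hcon⟩)
  have hclique := clique_of_few_bad v x hL hs.le B₀ hdeg (by linarith)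
  set A₀ := inFlat v L \ B₀ with hA₀
  -- A₀ spans
  have hA₀L : ∀ i ∈ (A₀ : Set ι), v i ∈ L := fun i hi => mem_inFlat.1 (Finset.mem_sdiff.1 hi).1
  have hspan : affineSpan ℝ (v '' (A₀ : Set ι)) = L := by
    by_contra hcon
    have hlt : affineSpan ℝ (v '' (A₀ : Set ι)) < L := lt_of_le_of_ne (span_le hA₀L) hcon
    have hg := hL _ hlt
    have h1 : A₀ ⊆ inFlat v (affineSpan ℝ (v '' (A₀ : Set ι))) := by
      intro i hi
      rw [mem_inFlat]
      exact mem_affineSpan ℝ (Set.mem_image_of_mem v (Finset.mem_coe.2 hi))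
    have h2 := Finset.card_le_card h1
    have h3 : (inFlat v L).card ≤ A₀.card + B₀.card := by
      have h5 : inFlat v L ⊆ A₀ ∪ B₀ := by
        intro i hi
        by_cases h : i ∈ B₀
        · exact Finset.mem_union_right _ h
        · exact Finset.mem_union_left _ (Finset.mem_sdiff.2 ⟨hi, h⟩)
      exact (Finset.card_le_card h5).trans (Finset.card_union_le _ _)
    have h4 : ((inFlat v L).card : ℝ) ≤ (inFlat v (affineSpan ℝ (v '' (A₀ : Set ι)))).card + B₀.card := by
      exact_mod_cast (by omega : (inFlat v L).card ≤ (inFlat v (affineSpan ℝ (v '' (A₀ : Set ι)))).card + B₀.card)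
    have h6 : 0 ≤ ((Module.finrank ℝ E : ℝ) + 3) * s := by positivity
    linarith
  set A : Finset ι := (inFlat v L).filter (fun i => ∀ j ∈ A₀, Pres v x i j) with hA
  have hAA : A₀ ⊆ A := by
    intro i hi
    rw [hA, Finset.mem_filter]
    exact ⟨(Finset.mem_sdiff.1 hi).1, fun j hj => hclique i hi j hj⟩
  have hAclique : ∀ i ∈ A, ∀ j ∈ A, Pres v x i j := by
    intro i hi j hj
    rw [hA, Finset.mem_filter] at hi hj
    refine pres_of_span (S := (A₀ : Set ι)) (fun a ha b hb => hclique a ha b hb) (fun a ha => hi.2 a ha)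
      (fun a ha => hj.2 a ha) ?_
    rw [hspan]
    exact mem_inFlat.1 hi.1
  refine ⟨inFlat v L \ A, ⟨Finset.sdiff_subset, ?_⟩, ?_, ?_⟩
  · intro b hb hcon
    apply (Finset.mem_sdiff.1 hb).2
    rw [hA, Finset.mem_filter]
    refine ⟨(Finset.mem_sdiff.1 hb).1, ?_⟩
    intro a ha
    have hS : ∀ i, i ∈ {a | a ∈ inFlat v L ∧ a ∉ inFlat v L \ A ∧ s(a, b) ∈ P} → i ∈ A ∧ Pres v x b i := by
      rintro i ⟨h1, h2, h3⟩
      refine ⟨?_, (hP _ _ h3).symm⟩
      by_contra h
      exact h2 (Finset.mem_sdiff.2 ⟨h1, h⟩)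
    refine (pres_of_span (fun i hi j hj => hAclique i (hS i hi).1 j (hS j hj).1)
      (fun i hi => hAclique a (hAA ha) i (hS i hi).1) (fun i hi => (hS i hi).2) ?_).symm
    rw [hcon]
    exact hA₀L a ha
  · have h1 : inFlat v L \ A ⊆ B₀ := by
      intro i hi
      by_contra h
      exact (Finset.mem_sdiff.1 hi).2 (hAA (Finset.mem_sdiff.2 ⟨(Finset.mem_sdiff.1 hi).1, h⟩))
    have h2 : ((inFlat v L \ A).card : ℝ) ≤ B₀.card := by exact_mod_cast Finset.card_le_card h1
    linarith
  · intro i hi hi' j hj hj'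
    apply hAclique
    · by_contra h; exact hi' (Finset.mem_sdiff.2 ⟨hi, h⟩)
    · by_contra h; exact hj' (Finset.mem_sdiff.2 ⟨hj, h⟩)

lemma Detached.union {v : ι → E} {L : AffineSubspace ℝ E} {P : Finset (Sym2 ι)} {B₁ B₂ : Finset ι}
    (h₁ : Detached v L P B₁) (h₂ : Detached v L P B₂) : Detached v L P (B₁ ∪ B₂) := by
  refine ⟨Finset.union_subset h₁.1 h₂.1, ?_⟩
  intro b hb hcon
  rcases Finset.mem_union.1 hb with hb | hb
  · apply h₁.2 b hb
    refine le_antisymm (span_le ?_) ?_
    · rintro i ⟨h, -, -⟩; exact mem_inFlat.1 h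
    · refine hcon.ge.trans (affineSpan_mono ℝ (Set.image_mono ?_))
      rintro i ⟨h1, h2, h3⟩
      exact ⟨h1, fun h => h2 (Finset.mem_union_left _ h), h3⟩
  · apply h₂.2 b hb
    refine le_antisymm (span_le ?_) ?_
    · rintro i ⟨h, -, -⟩; exact mem_inFlat.1 h
    · refine hcon.ge.trans (affineSpan_mono ℝ (Set.image_mono ?_))
      rintro i ⟨h1, h2, h3⟩
      exact ⟨h1, fun h => h2 (Finset.mem_union_right _ h), h3⟩

/-- The union argument. -/
theorem exists_common (v : ι → E) {L : AffineSubspace ℝ E} {t s m : ℝ} (hL : GoodFlat v t L)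
    (hs : 0 < s) (hm : 0 ≤ m) (P : Finset (Sym2 ι))
    (hcount : m + (Module.finrank ℝ E + 3) * s < t)
    (hbad : ∀ x : ι → E, (∀ i j, s(i, j) ∈ P → Pres v x i j) →
      ∀ N : ℕ, (∃ F : Finset (Sym2 ι), F.card = N ∧ ∀ i j, s(i, j) ∈ F ↔ ¬ Pres v x i j) →
        2 * (N : ℝ) ≤ m * s)
    (hdet : ∀ B, Detached v L P B → (B.card : ℝ) ≤ 2 * m → (B.card : ℝ) ≤ m) :
    ∃ U : Finset ι, (inFlat v L).card ≤ U.card + m ∧
      ∀ x : ι → E, (∀ i j, s(i, j) ∈ P → Pres v x i j) → ∀ i ∈ U, ∀ j ∈ U, Pres v x i j := by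
  classical
  set 𝒟 : Finset (Finset ι) := Finset.univ.filter (fun B => Detached v L P B ∧ (B.card : ℝ) ≤ m) with h𝒟
  have hne : 𝒟.Nonempty := by
    refine ⟨∅, ?_⟩
    rw [h𝒟, Finset.mem_filter]
    refine ⟨Finset.mem_univ _, ⟨Finset.empty_subset _, by simp⟩, by simpa using hm⟩
  obtain ⟨B₁, hB₁, hmax⟩ := Finset.exists_max_image 𝒟 Finset.card hne
  rw [h𝒟, Finset.mem_filter] at hB₁
  refine ⟨inFlat v L \ B₁, ?_, ?_⟩
  · have h1 : (inFlat v L).card ≤ (inFlat v L \ B₁).card + B₁.card := by
      have := Finset.le_card_sdiff B₁ (inFlat v L)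
      omega
    have h2 : ((inFlat v L).card : ℝ) ≤ (inFlat v L \ B₁).card + B₁.card := by exact_mod_cast h1
    linarith [hB₁.2.2]
  · intro x hx i hi j hj
    have hb2 : 2 * ((badGraph v x).edgeFinset.card : ℝ) ≤ m * s := by
      apply hbad x hx
      refine ⟨(badGraph v x).edgeFinset, rfl, ?_⟩
      intro i j
      rw [SimpleGraph.mem_edgeFinset, SimpleGraph.mem_edgeSet]
      rfl
    obtain ⟨B₂, hd, hc, hpres⟩ := exists_detached v x hL hs P hx hb2 hcount
    have hu := hB₁.2.1.union hd
    have hcu : (((B₁ ∪ B₂).card : ℕ) : ℝ) ≤ 2 * m := by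
      have : ((B₁ ∪ B₂).card : ℝ) ≤ B₁.card + B₂.card := by exact_mod_cast Finset.card_union_le B₁ B₂
      linarith [hB₁.2.2]
    have hmem : B₁ ∪ B₂ ∈ 𝒟 := by
      rw [h𝒟, Finset.mem_filter]
      exact ⟨Finset.mem_univ _, hu, hdet _ hu hcu⟩
    have hle := hmax _ hmem
    have heq : B₁ = B₁ ∪ B₂ := Finset.eq_of_subset_of_card_le Finset.subset_union_left hle
    have hsub : B₂ ⊆ B₁ := by rw [heq]; exact Finset.subset_union_right
    have h1 := Finset.mem_sdiff.1 hi
    have h2 := Finset.mem_sdiff.1 hj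
    exact hpres i h1.1 (fun h => h1.2 (hsub h)) j h2.1 (fun h => h2.2 (hsub h))

end E8helper13.RD
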