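import Pool.Agent.E8helper13.RD.Model
import Pool.Agent.E8helper13.RD.Struct

/-!
Detached sets are unlikely.
-/

open Finset

namespace E8helper13.RD

set_option linter.unusedSectionVars false
set_option linter.unusedDecidableInType false
set_option linter.unusedFintypeInType false

/-- Independence over disjoint blocks. -/
lemma pr_forall {α ι : Type*} [DecidableEq α] [DecidableEq ι] (Ωb : ι → Finset α)
    (A : ι → Finset α → Prop) (p : ℝ) (B : Finset ι) : ∀ Ω : Finset α, (∀ b ∈ B, Ωb b ⊆ Ω) →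
    (∀ b ∈ B, ∀ b' ∈ B, b ≠ b' → Disjoint (Ωb b) (Ωb b')) →
    pr Ω p (fun P => ∀ b ∈ B, A b (P ∩ Ωb b)) = ∏ b ∈ B, pr (Ωb b) p (A b) := by
  classical
  induction B using Finset.induction_on with
  | empty =>
    intro Ω _ _
    rw [Finset.prod_empty, ← pr_true Ω p]
    refine pr_congr Ω p ?_
    intro P _
    simp
  | insert b B hb ih =>
    intro Ω hsub hdis
    have h1 : Ωb b ⊆ Ω := hsub b (by simp)
    have h2 : ∀ b' ∈ B, Ωb b' ⊆ Ω \ Ωb b := by
      intro b' hb'
      intro a ha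
      refine Finset.mem_sdiff.2 ⟨hsub b' (by simp [hb']) ha, ?_⟩
      intro ha'
      exact Finset.disjoint_left.1 (hdis b (by simp) b' (by simp [hb']) (by rintro rfl; exact hb hb')) ha' ha
    have h3 := ih (Ω \ Ωb b) h2 (fun c hc c' hc' => hdis c (by simp [hc]) c' (by simp [hc']))
    rw [Finset.prod_insert hb, ← h3,
      ← pr_split (Finset.disjoint_sdiff) p (A b) (fun P => ∀ b' ∈ B, A b' (P ∩ Ωb b')),
      Finset.union_sdiff_of_subset h1]
    refine pr_congr Ω p ?_
    intro P hP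
    have key : ∀ b' ∈ B, P ∩ (Ω \ Ωb b) ∩ Ωb b' = P ∩ Ωb b' := by
      intro b' hb'
      ext a
      simp only [Finset.mem_inter]
      constructor
      · rintro ⟨⟨a1, a2⟩, a3⟩; exact ⟨a1, a3⟩
      · rintro ⟨a1, a3⟩; exact ⟨⟨a1, h2 b' hb' a3⟩, a3⟩
    constructor
    · intro h
      refine ⟨h b (by simp), ?_⟩
      intro b' hb'
      rw [key b' hb']
      exact h b' (by simp [hb'])
    · rintro ⟨h, h'⟩ b' hb'
      rcases Finset.mem_insert.1 hb' with e | hb''
      · rw [e]; exact h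
      · have := h' b' hb''
        rwa [key b' hb''] at this

variable {E : Type*} [NormedAddCommGroup E] [InnerProductSpace ℝ E] [FiniteDimensional ℝ E]
variable {ι : Type*} [Fintype ι] [DecidableEq ι]

/-- The pairs between `b` and the rest of the flat. -/
noncomputable def block (v : ι → E) (L : AffineSubspace ℝ E) (B : Finset ι) (b : ι) : Finset (Sym2 ι) :=
  (inFlat v L \ B).image (fun a => s(a, b))

lemma mk_inj (b : ι) : Function.Injective (fun a : ι => s(a, b)) := by
  intro a a' h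
  exact Sym2.congr_left.1 h

lemma sum_small (W : Finset ι) (k : ℕ) {p : ℝ} (h0 : 0 ≤ p) :
    ∑ F ∈ W.powerset.filter (fun F => F.card ≤ k), p ^ F.card
      ≤ ∑ j ∈ Finset.range (k + 1), ((Fintype.card ι : ℝ) * p) ^ j := by
  classical
  have hmaps : ∀ F ∈ W.powerset.filter (fun F => F.card ≤ k), F.card ∈ Finset.range (k + 1) := by
    intro F hF
    have := (Finset.mem_filter.1 hF).2
    rw [Finset.mem_range]; omega
  rw [← Finset.sum_fiberwise_of_maps_to hmaps]
  refine Finset.sum_le_sum ?_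
  intro j hj
  have h1 : ∀ F ∈ (W.powerset.filter (fun F => F.card ≤ k)).filter (fun F => F.card = j),
      p ^ F.card = p ^ j := by
    intro F hF
    rw [(Finset.mem_filter.1 hF).2]
  rw [Finset.sum_congr rfl h1, Finset.sum_const, nsmul_eq_mul, mul_pow]
  refine mul_le_mul_of_nonneg_right ?_ (pow_nonneg h0 _)
  have h2 : (W.powerset.filter (fun F => F.card ≤ k)).filter (fun F => F.card = j) ⊆ W.powersetCard j := by
    intro F hF
    rw [Finset.mem_filter, Finset.mem_filter, Finset.mem_powerset] at hF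
    rw [Finset.mem_powersetCard]
    exact ⟨hF.1.1, hF.2⟩
  have h3 := Finset.card_le_card h2
  rw [Finset.card_powersetCard] at h3
  have h4 : W.card.choose j ≤ (Fintype.card ι) ^ j :=
    (Nat.choose_le_pow _ _).trans (Nat.pow_le_pow_left (Finset.card_le_univ W) j)
  exact_mod_cast h3.trans h4

lemma pr_block_le (v : ι → E) {L : AffineSubspace ℝ E} {t : ℝ} (hL : GoodFlat v t L) (B : Finset ι)
    (b : ι) {p : ℝ} (h0 : 0 ≤ p) (h1 : p ≤ 1) :
    pr (block v L B b) p (fun Q => affineSpan ℝ (v '' {a | a ∈ inFlat v L ∧ a ∉ B ∧ s(a, b) ∈ Q}) ≠ L)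
      ≤ (∑ j ∈ Finset.range (Module.finrank ℝ E + 2), ((Fintype.card ι : ℝ) * p) ^ j)
        * Real.exp (-(p * (t - B.card))) := by
  classical
  set W := inFlat v L \ B with hW
  set J : Finset ι → Finset ι := fun F : Finset ι => W.filter (fun a => v a ∉ affineSpan ℝ (v '' (F : Set ι))) with hJ
  set 𝓕 : Finset (Finset ι) := (W.powerset.filter (fun F : Finset ι => F.card ≤ Module.finrank ℝ E + 1)).filter
    (fun F : Finset ι => affineSpan ℝ (v '' (F : Set ι)) ≠ L) with h𝓕
  have hWL : ∀ i ∈ W, v i ∈ L := fun i hi => mem_inFlat.1 (Finset.mem_sdiff.1 hi).1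
  have step1 : pr (block v L B b) p
      (fun Q => affineSpan ℝ (v '' {a | a ∈ inFlat v L ∧ a ∉ B ∧ s(a, b) ∈ Q}) ≠ L)
      ≤ ∑ F ∈ 𝓕, pr (block v L B b) p (fun Q => F.image (fun a => s(a, b)) ⊆ Q ∧
          Disjoint ((J F).image (fun a => s(a, b))) Q) := by
    refine le_trans (pr_mono _ h0 h1 (B := fun Q => ∃ F ∈ 𝓕, F.image (fun a => s(a, b)) ⊆ Q ∧
          Disjoint ((J F).image (fun a => s(a, b))) Q) ?_) (pr_exists_le _ h0 h1 _ _)
    intro Q hQ hne
    set A := W.filter (fun a => s(a, b) ∈ Q) with hA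
    have hAset : {a | a ∈ inFlat v L ∧ a ∉ B ∧ s(a, b) ∈ Q} = (A : Set ι) := by
      ext a
      simp only [Set.mem_ofPred_eq, Finset.mem_coe, hA, Finset.mem_filter, hW, Finset.mem_sdiff, and_assoc]
    rw [hAset] at hne
    obtain ⟨F, hFA, hFc, hFs⟩ := exists_small_span v A
    refine ⟨F, ?_, ?_, ?_⟩
    · rw [h𝓕, Finset.mem_filter, Finset.mem_filter, Finset.mem_powerset, hFs]
      exact ⟨⟨hFA.trans (Finset.filter_subset _ _), hFc⟩, hne⟩
    · intro e he
      obtain ⟨a, ha, rfl⟩ := Finset.mem_image.1 he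
      exact (Finset.mem_filter.1 (hFA ha)).2
    · rw [Finset.disjoint_left]
      intro e he heQ
      obtain ⟨a, ha, rfl⟩ := Finset.mem_image.1 he
      rw [hJ, Finset.mem_filter] at ha
      apply ha.2
      rw [hFs]
      refine mem_affineSpan ℝ (Set.mem_image_of_mem v ?_)
      rw [Finset.mem_coe, hA, Finset.mem_filter]
      exact ⟨ha.1, heQ⟩
  refine step1.trans ?_
  have step2 : ∀ F ∈ 𝓕, pr (block v L B b) p (fun Q => F.image (fun a => s(a, b)) ⊆ Q ∧
          Disjoint ((J F).image (fun a => s(a, b))) Q) ≤ p ^ F.card * Real.exp (-(p * (t - B.card))) := by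
    intro F hF
    rw [h𝓕, Finset.mem_filter, Finset.mem_filter, Finset.mem_powerset] at hF
    obtain ⟨⟨hFW, hFc⟩, hFL⟩ := hF
    have hI : F.image (fun a => s(a, b)) ⊆ block v L B b := Finset.image_subset_image hFW
    have hJ' : (J F).image (fun a => s(a, b)) ⊆ block v L B b :=
      Finset.image_subset_image (Finset.filter_subset _ _)
    have hdis : Disjoint (F.image (fun a => s(a, b))) ((J F).image (fun a => s(a, b))) := by
      rw [Finset.disjoint_left]
      intro e he he'
      obtain ⟨a, ha, rfl⟩ := Finset.mem_image.1 he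
      obtain ⟨a', ha', h⟩ := Finset.mem_image.1 he'
      have := mk_inj b h
      subst this
      rw [hJ, Finset.mem_filter] at ha'
      exact ha'.2 (mem_affineSpan ℝ (Set.mem_image_of_mem v (Finset.mem_coe.2 ha)))
    rw [pr_cyl hI hJ' hdis, Finset.card_image_of_injective _ (mk_inj b),
      Finset.card_image_of_injective _ (mk_inj b)]
    refine mul_le_mul_of_nonneg_left ?_ (pow_nonneg h0 _)
    have hlt : affineSpan ℝ (v '' (F : Set ι)) < L :=
      lt_of_le_of_ne (span_le fun i hi => hWL i (hFW hi)) hFL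
    have hg := hL _ hlt
    have hc : (inFlat v L).card ≤ (J F).card + B.card + (inFlat v (affineSpan ℝ (v '' (F : Set ι)))).card := by
      have hsub : inFlat v L ⊆ J F ∪ B ∪ inFlat v (affineSpan ℝ (v '' (F : Set ι))) := by
        intro i hi
        by_cases hiB : i ∈ B
        · simp [hiB]
        · by_cases his : v i ∈ affineSpan ℝ (v '' (F : Set ι))
          · exact Finset.mem_union_right _ (mem_inFlat.2 his)
          · refine Finset.mem_union_left _ (Finset.mem_union_left _ ?_)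
            rw [hJ, Finset.mem_filter]
            exact ⟨Finset.mem_sdiff.2 ⟨hi, hiB⟩, his⟩
      refine (Finset.card_le_card hsub).trans ((Finset.card_union_le _ _).trans ?_)
      have := Finset.card_union_le (J F) B
      omega
    have hc' : ((inFlat v L).card : ℝ) ≤ (J F).card + B.card
        + (inFlat v (affineSpan ℝ (v '' (F : Set ι)))).card := by exact_mod_cast hc
    have hJc : t - B.card ≤ (J F).card := by linarith
    have h3 : 1 - p ≤ Real.exp (-p) := by
      have := Real.add_one_le_exp (-p)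
      linarith
    calc (1 - p) ^ (J F).card ≤ (Real.exp (-p)) ^ (J F).card := pow_le_pow_left₀ (by linarith) h3 _
      _ = Real.exp (-(p * (J F).card)) := by rw [← Real.exp_nat_mul]; ring_nf
      _ ≤ Real.exp (-(p * (t - B.card))) := by
          rw [Real.exp_le_exp]
          have := mul_le_mul_of_nonneg_left hJc h0
          linarith
  refine (Finset.sum_le_sum step2).trans ?_
  rw [← Finset.sum_mul]
  refine mul_le_mul_of_nonneg_right ?_ (Real.exp_pos _).le
  refine le_trans ?_ (sum_small W (Module.finrank ℝ E + 1) h0)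
  exact Finset.sum_le_sum_of_subset_of_nonneg (Finset.filter_subset _ _) (fun _ _ _ => pow_nonneg h0 _)

lemma pr_detached_le (v : ι → E) {L : AffineSubspace ℝ E} {t : ℝ} (hL : GoodFlat v t L)
    (Ω : Finset (Sym2 ι)) (hΩ : ∀ a b : ι, a ≠ b → s(a, b) ∈ Ω) (B : Finset ι)
    {p : ℝ} (h0 : 0 ≤ p) (h1 : p ≤ 1) :
    pr Ω p (fun P => Detached v L P B)
      ≤ ((∑ j ∈ Finset.range (Module.finrank ℝ E + 2), ((Fintype.card ι : ℝ) * p) ^ j)
        * Real.exp (-(p * (t - B.card)))) ^ B.card := by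
  classical
  set A : ι → Finset (Sym2 ι) → Prop := fun b Q =>
    affineSpan ℝ (v '' {a | a ∈ inFlat v L ∧ a ∉ B ∧ s(a, b) ∈ Q}) ≠ L with hA
  have h2 : pr Ω p (fun P => Detached v L P B) ≤ pr Ω p (fun P => ∀ b ∈ B, A b (P ∩ block v L B b)) := by
    apply pr_mono Ω h0 h1
    intro P hP hdet b hb
    have h3 := hdet.2 b hb
    rw [hA]
    have : {a | a ∈ inFlat v L ∧ a ∉ B ∧ s(a, b) ∈ P ∩ block v L B b}
        = {a | a ∈ inFlat v L ∧ a ∉ B ∧ s(a, b) ∈ P} := by
      ext a
      simp only [Set.mem_ofPred_eq, Finset.mem_inter]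
      constructor
      · rintro ⟨a1, a2, a3, a4⟩; exact ⟨a1, a2, a3⟩
      · rintro ⟨a1, a2, a3⟩
        exact ⟨a1, a2, a3, Finset.mem_image.2 ⟨a, Finset.mem_sdiff.2 ⟨a1, a2⟩, rfl⟩⟩
    show affineSpan ℝ (v '' {a | a ∈ inFlat v L ∧ a ∉ B ∧ s(a, b) ∈ P ∩ block v L B b}) ≠ L
    rw [this]
    exact h3
  refine h2.trans ?_
  rw [pr_forall (block v L B) A p B Ω]
  · refine (Finset.prod_le_prod (fun b _ => pr_nonneg _ h0 h1 _) (fun b _ => pr_block_le v hL B b h0 h1)).trans ?_
    rw [Finset.prod_const]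
  · intro b hb e he
    obtain ⟨a, ha, rfl⟩ := Finset.mem_image.1 he
    exact hΩ a b (fun h => (Finset.mem_sdiff.1 ha).2 (h ▸ hb))
  · intro b hb b' hb' hne
    rw [Finset.disjoint_left]
    intro e he he'
    obtain ⟨a, ha, rfl⟩ := Finset.mem_image.1 he
    obtain ⟨a', ha', h⟩ := Finset.mem_image.1 he'
    rw [Sym2.eq_iff] at h
    rcases h with ⟨h3, h4⟩ | ⟨h3, h4⟩
    · exact hne h4.symm
    · exact (Finset.mem_sdiff.1 ha).2 (h4 ▸ hb')

/-- No detached set of intermediate size. -/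
theorem pr_exists_detached_le (v : ι → E) {L : AffineSubspace ℝ E} {t m r : ℝ} (hL : GoodFlat v t L)
    (Ω : Finset (Sym2 ι)) (hΩ : ∀ a b : ι, a ≠ b → s(a, b) ∈ Ω)
    {p : ℝ} (h0 : 0 ≤ p) (h1 : p ≤ 1) (hr : 0 ≤ r)
    (hq : (∑ j ∈ Finset.range (Module.finrank ℝ E + 2), ((Fintype.card ι : ℝ) * p) ^ j)
        * Real.exp (-(p * (t - 2 * m))) ≤ Real.exp (-r)) :
    pr Ω p (fun P => ∃ B, Detached v L P B ∧ (B.card : ℝ) ≤ 2 * m ∧ m < B.card)
      ≤ 2 ^ Fintype.card ι * Real.exp (-(r * m)) := by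
  classical
  set 𝓑 : Finset (Finset ι) := Finset.univ.filter (fun B => (B.card : ℝ) ≤ 2 * m ∧ m < B.card) with h𝓑
  refine le_trans (pr_mono Ω h0 h1 (B := fun P => ∃ B ∈ 𝓑, Detached v L P B) ?_) ?_
  · rintro P _ ⟨B, h2, h3, h4⟩
    refine ⟨B, ?_, h2⟩
    rw [h𝓑, Finset.mem_filter]
    exact ⟨Finset.mem_univ _, h3, h4⟩
  refine (pr_exists_le Ω h0 h1 𝓑 (fun B P => Detached v L P B)).trans ?_
  have h2 : ∀ B ∈ 𝓑, pr Ω p (fun P => Detached v L P B) ≤ Real.exp (-(r * m)) := by
    intro B hB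
    rw [h𝓑, Finset.mem_filter] at hB
    refine (pr_detached_le v hL Ω hΩ B h0 h1).trans ?_
    have h3 : (∑ j ∈ Finset.range (Module.finrank ℝ E + 2), ((Fintype.card ι : ℝ) * p) ^ j)
        * Real.exp (-(p * (t - B.card))) ≤ Real.exp (-r) := by
      refine le_trans ?_ hq
      refine mul_le_mul_of_nonneg_left ?_ (Finset.sum_nonneg fun j _ => by positivity)
      rw [Real.exp_le_exp]
      have := mul_le_mul_of_nonneg_left hB.2.1 h0
      linarith
    calc ((∑ j ∈ Finset.range (Module.finrank ℝ E + 2), ((Fintype.card ι : ℝ) * p) ^ j)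
        * Real.exp (-(p * (t - B.card)))) ^ B.card
        ≤ (Real.exp (-r)) ^ B.card := by
          refine pow_le_pow_left₀ ?_ h3 _
          exact mul_nonneg (Finset.sum_nonneg fun j _ => by positivity) (Real.exp_pos _).le
      _ = Real.exp (-(r * B.card)) := by rw [← Real.exp_nat_mul]; ring_nf
      _ ≤ Real.exp (-(r * m)) := by
          rw [Real.exp_le_exp]
          have := mul_le_mul_of_nonneg_left hB.2.2.le hr
          linarith
  refine (Finset.sum_le_sum h2).trans ?_
  rw [Finset.sum_const, nsmul_eq_mul]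
  refine mul_le_mul_of_nonneg_right ?_ (Real.exp_pos _).le
  have h4 : 𝓑.card ≤ 2 ^ Fintype.card ι := by
    refine (Finset.card_le_univ 𝓑).trans ?_
    rw [Fintype.card_finset]
  exact_mod_cast h4

end E8helper13.RD
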