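import Mathlib

/-!
Geometry: a point of the affine span of a congruent set is determined by its distances to the set.
-/

open Finset

namespace E8helper13.RD

set_option linter.unusedSectionVars false
set_option linter.unusedDecidableInType false

variable {E : Type*} [NormedAddCommGroup E] [InnerProductSpace ℝ E]

/-- `x` preserves the distance of the points `i`, `j` of the configuration `v`. -/
def Pres {ι : Type*} (v x : ι → E) (i j : ι) : Prop := dist (x i) (x j) = dist (v i) (v j)

lemma Pres.symm {ι : Type*} {v x : ι → E} {i j : ι} (h : Pres v x i j) : Pres v x j i := by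
  unfold Pres at *
  rw [dist_comm, h, dist_comm]

lemma Pres.refl {ι : Type*} (v x : ι → E) (i : ι) : Pres v x i i := by
  unfold Pres; simp

lemma inner_eq_of_pres {ι : Type*} {v x : ι → E} {i j s : ι} (h1 : Pres v x i s)
    (h2 : Pres v x j s) (h3 : Pres v x i j) :
    inner ℝ (x i - x s) (x j - x s) = inner ℝ (v i - v s) (v j - v s) := by
  unfold Pres at *
  rw [real_inner_eq_norm_mul_self_add_norm_mul_self_sub_norm_sub_mul_self_div_two,
    real_inner_eq_norm_mul_self_add_norm_mul_self_sub_norm_sub_mul_self_div_two]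
  rw [sub_sub_sub_cancel_right, sub_sub_sub_cancel_right, ← dist_eq_norm, ← dist_eq_norm,
    ← dist_eq_norm, ← dist_eq_norm, ← dist_eq_norm, ← dist_eq_norm, h1, h2, h3]

/-- The determination lemma. -/
theorem pres_of_span {ι : Type*} {v x : ι → E} {S : Set ι} {a b : ι}
    (hS : ∀ i ∈ S, ∀ j ∈ S, Pres v x i j) (ha : ∀ i ∈ S, Pres v x a i) (hb : ∀ i ∈ S, Pres v x b i)
    (hspan : v a ∈ affineSpan ℝ (v '' S)) : Pres v x a b := by
  classical
  have hne : (v '' S).Nonempty := by
    rw [← affineSpan_nonempty ℝ]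
    exact ⟨_, hspan⟩
  obtain ⟨_, s, hs, rfl⟩ := hne
  -- the graph of the isometry
  set Γ : Submodule ℝ (E × E) := Submodule.span ℝ ((fun i => (v i - v s, x i - x s)) '' S) with hΓ
  have A : ∀ t, (∀ i ∈ S, Pres v x t i) → ∀ w ∈ Γ, inner ℝ w.1 (v t - v s) = inner ℝ w.2 (x t - x s) := by
    intro t ht w hw
    refine Submodule.span_induction (p := fun w _ => inner ℝ w.1 (v t - v s) = inner ℝ w.2 (x t - x s))
      ?_ ?_ ?_ ?_ hw
    · rintro _ ⟨i, hi, rfl⟩
      exact (inner_eq_of_pres (hS i hi s hs) (ht s hs) (ht i hi).symm).symm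
    · simp
    · intro w1 w2 _ _ h1 h2
      simp only [Prod.fst_add, Prod.snd_add, inner_add_left]
      rw [h1, h2]
    · intro c w _ h
      simp only [Prod.smul_fst, Prod.smul_snd, inner_smul_left]
      rw [h]
  have Bn : ∀ w ∈ Γ, ∀ w' ∈ Γ, inner ℝ w.1 w'.1 = inner ℝ w.2 w'.2 := by
    intro w hw w' hw'
    refine Submodule.span_induction (p := fun w' _ => inner ℝ w.1 w'.1 = inner ℝ w.2 w'.2)
      ?_ ?_ ?_ ?_ hw'
    · rintro _ ⟨i, hi, rfl⟩
      exact A i (fun j hj => hS i hi j hj) w hw
    · simp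
    · intro w1 w2 _ _ h1 h2
      simp only [Prod.fst_add, Prod.snd_add, inner_add_right]
      rw [h1, h2]
    · intro c w _ h
      simp only [Prod.smul_fst, Prod.smul_snd, inner_smul_right]
      rw [h]
  -- the vector v a - v s is a first coordinate
  have hmem : v a - v s ∈ Submodule.map (LinearMap.fst ℝ E E) Γ := by
    rw [hΓ, Submodule.map_span, ← Set.image_comp]
    have h1 : v a -ᵥ v s ∈ vectorSpan ℝ (v '' S) := by
      rw [← direction_affineSpan]
      exact AffineSubspace.vsub_mem_direction hspan (mem_affineSpan ℝ ⟨s, hs, rfl⟩)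
    rw [vectorSpan_eq_span_vsub_set_right ℝ (Set.mem_image_of_mem v hs), ← Set.image_comp] at h1
    exact h1
  obtain ⟨w, hw, hwa⟩ := Submodule.mem_map.1 hmem
  have hwa' : w.1 = v a - v s := hwa
  have hzero : w.2 = x a - x s := by
    rw [← sub_eq_zero, ← inner_self_eq_zero (𝕜 := ℝ)]
    have i1 := A a ha w hw
    have i2 := Bn w hw w hw
    have i3 : inner ℝ (x a - x s) (x a - x s) = inner ℝ (v a - v s) (v a - v s) :=
      inner_eq_of_pres (ha s hs) (ha s hs) (Pres.refl v x a)
    have i5 : inner ℝ w.1 w.1 = inner ℝ (v a - v s) (v a - v s) := by rw [hwa']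
    have i6 : inner ℝ w.1 (v a - v s) = inner ℝ (v a - v s) (v a - v s) := by rw [hwa']
    have i7 := real_inner_comm w.2 (x a - x s)
    have i8 : inner ℝ (w.2 - (x a - x s)) (w.2 - (x a - x s))
        = inner ℝ w.2 w.2 - inner ℝ w.2 (x a - x s) - (inner ℝ (x a - x s) w.2
          - inner ℝ (x a - x s) (x a - x s)) := by
      rw [inner_sub_left, inner_sub_right w.2 w.2, inner_sub_right (x a - x s) w.2]
    rw [i8]
    linarith
  have i4 := A b hb w hw
  rw [hwa', hzero] at i4
  -- conclude
  have k1 := ha s hs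
  have k2 := hb s hs
  unfold Pres at *
  rw [real_inner_eq_norm_mul_self_add_norm_mul_self_sub_norm_sub_mul_self_div_two,
    real_inner_eq_norm_mul_self_add_norm_mul_self_sub_norm_sub_mul_self_div_two,
    sub_sub_sub_cancel_right, sub_sub_sub_cancel_right, ← dist_eq_norm, ← dist_eq_norm,
    ← dist_eq_norm, ← dist_eq_norm, ← dist_eq_norm, ← dist_eq_norm, k1, k2] at i4
  have h5 : dist (x a) (x b) * dist (x a) (x b) = dist (v a) (v b) * dist (v a) (v b) := by linarith
  exact (mul_self_inj_of_nonneg dist_nonneg dist_nonneg).1 h5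

variable [FiniteDimensional ℝ E]

/-- A point outside the affine span raises the dimension. -/
lemma finrank_insert {ι : Type*} [DecidableEq ι] {v : ι → E} {S : Finset ι} {t : ι}
    (hS : S.Nonempty) (ht : v t ∉ affineSpan ℝ (v '' (S : Set ι))) :
    Module.finrank ℝ (vectorSpan ℝ (v '' (S : Set ι))) + 1
      ≤ Module.finrank ℝ (vectorSpan ℝ (v '' ((insert t S : Finset ι) : Set ι))) := by
  obtain ⟨s, hs⟩ := hS
  have hlt : vectorSpan ℝ (v '' (S : Set ι)) < vectorSpan ℝ (v '' ((insert t S : Finset ι) : Set ι)) := by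
    refine lt_of_le_of_ne (vectorSpan_mono ℝ (Set.image_mono (by simp))) ?_
    intro h
    apply ht
    have h1 : v t -ᵥ v s ∈ vectorSpan ℝ (v '' ((insert t S : Finset ι) : Set ι)) :=
      vsub_mem_vectorSpan ℝ ⟨t, by simp, rfl⟩ ⟨s, by simp [hs], rfl⟩
    rw [← h] at h1
    have h2 := vadd_mem_affineSpan_of_mem_affineSpan_of_mem_vectorSpan
      (mem_affineSpan ℝ (Set.mem_image_of_mem v (Finset.mem_coe.2 hs))) h1
    simpa using h2
  have := Submodule.finrank_lt_finrank_of_lt hlt
  omega

end E8helper13.RD
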