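import Mathlib

/-!
Random subsets of a finite set: every element of `Ω` is kept independently with probability `p`.
-/

open Finset

namespace E8helper13.RD

set_option linter.unusedSectionVars false
set_option linter.unusedDecidableInType false

variable {α : Type*} [DecidableEq α]

open Classical in
/-- `pr Ω p A`: the probability that the `p`-random subset `P` of `Ω` satisfies `A`. -/
noncomputable def pr (Ω : Finset α) (p : ℝ) (A : Finset α → Prop) : ℝ :=
  ∑ P ∈ Ω.powerset.filter (fun P => A P), p ^ P.card * (1 - p) ^ (Ω.card - P.card)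

lemma wt_nonneg (Ω : Finset α) {p : ℝ} (h0 : 0 ≤ p) (h1 : p ≤ 1) (P : Finset α) :
    0 ≤ p ^ P.card * (1 - p) ^ (Ω.card - P.card) :=
  mul_nonneg (pow_nonneg h0 _) (pow_nonneg (by linarith) _)

lemma pr_eq (Ω : Finset α) (p : ℝ) (A : Finset α → Prop) [DecidablePred A] :
    pr Ω p A = ∑ P ∈ Ω.powerset, if A P then p ^ P.card * (1 - p) ^ (Ω.card - P.card) else 0 := by
  unfold pr
  rw [Finset.sum_filter]
  refine Finset.sum_congr rfl ?_
  intro P _
  congr

lemma pr_nonneg (Ω : Finset α) {p : ℝ} (h0 : 0 ≤ p) (h1 : p ≤ 1) (A : Finset α → Prop) :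
    0 ≤ pr Ω p A := Finset.sum_nonneg fun P _ => wt_nonneg Ω h0 h1 P

lemma pr_true (Ω : Finset α) (p : ℝ) : pr Ω p (fun _ => True) = 1 := by
  rw [pr_eq]
  simp only [if_true]
  rw [Finset.sum_pow_mul_eq_add_pow]
  simp

lemma pr_mono (Ω : Finset α) {p : ℝ} (h0 : 0 ≤ p) (h1 : p ≤ 1) {A B : Finset α → Prop}
    (h : ∀ P, P ⊆ Ω → A P → B P) : pr Ω p A ≤ pr Ω p B := by
  classical
  unfold pr
  refine Finset.sum_le_sum_of_subset_of_nonneg ?_ (fun P _ _ => wt_nonneg Ω h0 h1 P)
  intro P hP
  rw [Finset.mem_filter, Finset.mem_powerset] at hP ⊢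
  exact ⟨hP.1, h P hP.1 hP.2⟩

lemma pr_congr (Ω : Finset α) (p : ℝ) {A B : Finset α → Prop}
    (h : ∀ P, P ⊆ Ω → (A P ↔ B P)) : pr Ω p A = pr Ω p B := by
  classical
  unfold pr
  refine Finset.sum_congr ?_ (fun _ _ => rfl)
  ext P
  rw [Finset.mem_filter, Finset.mem_filter, Finset.mem_powerset]
  constructor
  · rintro ⟨a, b⟩; exact ⟨a, (h P a).1 b⟩
  · rintro ⟨a, b⟩; exact ⟨a, (h P a).2 b⟩

lemma pr_le_one (Ω : Finset α) {p : ℝ} (h0 : 0 ≤ p) (h1 : p ≤ 1) (A : Finset α → Prop) :
    pr Ω p A ≤ 1 := by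
  rw [← pr_true Ω p]
  exact pr_mono Ω h0 h1 (fun _ _ _ => trivial)

lemma pr_or_le (Ω : Finset α) {p : ℝ} (h0 : 0 ≤ p) (h1 : p ≤ 1) (A B : Finset α → Prop) :
    pr Ω p (fun P => A P ∨ B P) ≤ pr Ω p A + pr Ω p B := by
  classical
  rw [pr_eq, pr_eq, pr_eq, ← Finset.sum_add_distrib]
  refine Finset.sum_le_sum ?_
  intro P _
  have := wt_nonneg Ω h0 h1 P
  by_cases hA : A P <;> by_cases hB : B P <;> simp [hA, hB, this]

lemma pr_add_compl (Ω : Finset α) (p : ℝ) (A : Finset α → Prop) :
    pr Ω p A + pr Ω p (fun P => ¬ A P) = 1 := by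
  classical
  rw [← pr_true Ω p, pr_eq, pr_eq, pr_eq, ← Finset.sum_add_distrib]
  refine Finset.sum_congr rfl ?_
  intro P _
  by_cases hA : A P <;> simp [hA]

lemma pr_exists_le {ι : Type*} (Ω : Finset α) {p : ℝ} (h0 : 0 ≤ p) (h1 : p ≤ 1)
    (s : Finset ι) (A : ι → Finset α → Prop) :
    pr Ω p (fun P => ∃ i ∈ s, A i P) ≤ ∑ i ∈ s, pr Ω p (A i) := by
  classical
  induction s using Finset.induction_on with
  | empty =>
    have : pr Ω p (fun P => ∃ i ∈ (∅ : Finset ι), A i P) = 0 := by
      rw [pr_eq]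
      simp
    rw [this]; simp
  | insert a s ha ih =>
    rw [Finset.sum_insert ha]
    refine le_trans (pr_mono Ω h0 h1 (B := fun P => A a P ∨ ∃ i ∈ s, A i P) ?_) ?_
    · rintro P _ ⟨i, hi, h⟩
      rcases Finset.mem_insert.1 hi with rfl | hi
      · exact Or.inl h
      · exact Or.inr ⟨i, hi, h⟩
    · exact le_trans (pr_or_le Ω h0 h1 _ _) (by linarith)

/-- Independence of the two parts of a disjoint union. -/
lemma pr_split {Ω₁ Ω₂ : Finset α} (hd : Disjoint Ω₁ Ω₂) (p : ℝ) (A B : Finset α → Prop) :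
    pr (Ω₁ ∪ Ω₂) p (fun P => A (P ∩ Ω₁) ∧ B (P ∩ Ω₂)) = pr Ω₁ p A * pr Ω₂ p B := by
  classical
  unfold pr
  rw [Finset.sum_mul_sum, ← Finset.sum_product']
  symm
  refine Finset.sum_bij' (fun q _ => q.1 ∪ q.2) (fun P _ => (P ∩ Ω₁, P ∩ Ω₂)) ?_ ?_ ?_ ?_ ?_
  · rintro ⟨P, Q⟩ h
    simp only [Finset.mem_product, Finset.mem_filter, Finset.mem_powerset] at h ⊢
    obtain ⟨⟨hP, hA⟩, ⟨hQ, hB⟩⟩ := h
    have e1 : (P ∪ Q) ∩ Ω₁ = P := by
      ext a
      simp only [Finset.mem_inter, Finset.mem_union]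
      constructor
      · rintro ⟨h | h, h'⟩
        · exact h
        · exact absurd (hQ h) (Finset.disjoint_left.1 hd h')
      · intro h; exact ⟨Or.inl h, hP h⟩
    have e2 : (P ∪ Q) ∩ Ω₂ = Q := by
      ext a
      simp only [Finset.mem_inter, Finset.mem_union]
      constructor
      · rintro ⟨h | h, h'⟩
        · exact absurd h' (Finset.disjoint_left.1 hd (hP h))
        · exact h
      · intro h; exact ⟨Or.inr h, hQ h⟩
    rw [e1, e2]
    exact ⟨Finset.union_subset_union hP hQ, hA, hB⟩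
  · intro P h
    simp only [Finset.mem_product, Finset.mem_filter, Finset.mem_powerset] at h ⊢
    exact ⟨⟨Finset.inter_subset_right, h.2.1⟩, ⟨Finset.inter_subset_right, h.2.2⟩⟩
  · rintro ⟨P, Q⟩ h
    simp only [Finset.mem_product, Finset.mem_filter, Finset.mem_powerset] at h
    obtain ⟨⟨hP, hA⟩, ⟨hQ, hB⟩⟩ := h
    ext a
    · simp only [Finset.mem_inter, Finset.mem_union]
      constructor
      · rintro ⟨h | h, h'⟩
        · exact h
        · exact absurd (hQ h) (Finset.disjoint_left.1 hd h')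
      · intro h; exact ⟨Or.inl h, hP h⟩
    · simp only [Finset.mem_inter, Finset.mem_union]
      constructor
      · rintro ⟨h | h, h'⟩
        · exact absurd h' (Finset.disjoint_left.1 hd (hP h))
        · exact h
      · intro h; exact ⟨Or.inr h, hQ h⟩
  · intro P h
    simp only [Finset.mem_filter, Finset.mem_powerset] at h
    rw [← Finset.inter_union_distrib_left]
    exact Finset.inter_eq_left.2 h.1
  · rintro ⟨P, Q⟩ h
    simp only [Finset.mem_product, Finset.mem_filter, Finset.mem_powerset] at h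
    obtain ⟨⟨hP, hA⟩, ⟨hQ, hB⟩⟩ := h
    have hPQ : Disjoint P Q := Finset.disjoint_of_subset_left hP (Finset.disjoint_of_subset_right hQ hd)
    have c1 : P.card ≤ Ω₁.card := Finset.card_le_card hP
    have c2 : Q.card ≤ Ω₂.card := Finset.card_le_card hQ
    simp only []
    rw [Finset.card_union_of_disjoint hd, Finset.card_union_of_disjoint hPQ,
      show Ω₁.card + Ω₂.card - (P.card + Q.card) = (Ω₁.card - P.card) + (Ω₂.card - Q.card) by omega,
      pow_add, pow_add]
    ring

/-- Cylinder events. -/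
lemma pr_cyl {Ω I J : Finset α} (hI : I ⊆ Ω) (hJ : J ⊆ Ω) (hIJ : Disjoint I J) (p : ℝ) :
    pr Ω p (fun P => I ⊆ P ∧ Disjoint J P) = p ^ I.card * (1 - p) ^ J.card := by
  classical
  have key := Finset.prod_add (fun e => if e ∈ J then (0 : ℝ) else p)
    (fun e => if e ∈ I then (0 : ℝ) else 1 - p) Ω
  have lhs : ∏ i ∈ Ω, ((if i ∈ J then (0 : ℝ) else p) + (if i ∈ I then (0 : ℝ) else 1 - p))
      = p ^ I.card * (1 - p) ^ J.card := by
    have : ∀ i ∈ Ω, ((if i ∈ J then (0 : ℝ) else p) + (if i ∈ I then (0 : ℝ) else 1 - p))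
        = (if i ∈ I then p else 1) * (if i ∈ J then 1 - p else 1) := by
      intro i _
      by_cases h1 : i ∈ I
      · have h2 : i ∉ J := Finset.disjoint_left.1 hIJ h1
        simp [h1, h2]
      · by_cases h2 : i ∈ J
        · simp [h1, h2]
        · simp [h1, h2]
    rw [Finset.prod_congr rfl this, Finset.prod_mul_distrib, Finset.prod_ite_mem, Finset.prod_ite_mem,
      Finset.inter_eq_right.2 hI, Finset.inter_eq_right.2 hJ]
    simp
  rw [lhs] at key
  rw [key]
  unfold pr
  rw [Finset.sum_filter]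
  refine Finset.sum_congr rfl ?_
  intro P hP
  rw [Finset.mem_powerset] at hP
  by_cases h1 : Disjoint J P
  · have e1 : ∏ i ∈ P, (if i ∈ J then (0 : ℝ) else p) = p ^ P.card := by
      rw [Finset.prod_congr rfl (g := fun _ => p), Finset.prod_const]
      intro i hi
      rw [if_neg (Finset.disjoint_right.1 h1 hi)]
    by_cases h2 : I ⊆ P
    · rw [if_pos ⟨h2, h1⟩, e1]
      congr 1
      rw [Finset.prod_congr rfl (g := fun _ => 1 - p), Finset.prod_const, Finset.card_sdiff_of_subset hP]
      intro i hi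
      rw [if_neg]
      intro hi'
      exact (Finset.mem_sdiff.1 hi).2 (h2 hi')
    · rw [if_neg (fun h => h2 h.1)]
      obtain ⟨i, hi, hi'⟩ := Finset.not_subset.1 h2
      rw [Finset.prod_eq_zero (i := i) (s := Ω \ P) (Finset.mem_sdiff.2 ⟨hI hi, hi'⟩) (by simp [hi])]
      simp
  · rw [if_neg (fun h => h1 h.2)]
    obtain ⟨i, hi, hi'⟩ := Finset.not_disjoint_iff.1 h1
    rw [Finset.prod_eq_zero (i := i) (s := P) hi' (by simp [hi])]
    simp

/-- Monotonicity in `p` for increasing events. -/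
lemma pr_mono_p {Ω : Finset α} {p r : ℝ} (h0 : 0 ≤ p) (hpr : p ≤ r) (h1 : r ≤ 1)
    {A : Finset α → Prop} (hA : ∀ P Q, P ⊆ Q → Q ⊆ Ω → A P → A Q) :
    pr Ω p A ≤ pr Ω r A := by
  classical
  induction Ω using Finset.induction_on generalizing A with
  | empty => rw [pr_eq, pr_eq]; simp
  | insert a Ω ha ih =>
    have hdis : Disjoint ({a} : Finset α) Ω := Finset.disjoint_singleton_left.2 ha
    -- conditioning on whether `a` is kept
    have cond : ∀ s : ℝ, pr (insert a Ω) s A
        = s * pr Ω s (fun P => A (insert a P)) + (1 - s) * pr Ω s A := by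
      intro s
      unfold pr
      rw [Finset.sum_filter, Finset.sum_powerset_insert ha, Finset.sum_filter, Finset.sum_filter,
        Finset.mul_sum, Finset.mul_sum, add_comm]
      congr 1
      · refine Finset.sum_congr rfl ?_
        intro P hP
        rw [Finset.mem_powerset] at hP
        have haP : a ∉ P := fun h => ha (hP h)
        rw [Finset.card_insert_of_notMem ha, Finset.card_insert_of_notMem haP,
          Nat.add_sub_add_right, pow_succ]
        by_cases h : A (insert a P)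
        · rw [if_pos h, if_pos h]; ring
        · rw [if_neg h, if_neg h]; ring
      · refine Finset.sum_congr rfl ?_
        intro P hP
        rw [Finset.mem_powerset] at hP
        have hc : P.card ≤ Ω.card := Finset.card_le_card hP
        rw [Finset.card_insert_of_notMem ha, show Ω.card + 1 - P.card = (Ω.card - P.card) + 1 by omega,
          pow_succ]
        by_cases h : A P
        · rw [if_pos h, if_pos h]; ring
        · rw [if_neg h, if_neg h]; ring
    have i1 : pr Ω p (fun P => A (insert a P)) ≤ pr Ω r (fun P => A (insert a P)) := by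
      apply ih
      intro P Q hPQ hQ h
      exact hA _ _ (Finset.insert_subset_insert a hPQ) (Finset.insert_subset_insert a hQ) h
    have i2 : pr Ω p A ≤ pr Ω r A := by
      apply ih
      intro P Q hPQ hQ h
      exact hA _ _ hPQ (hQ.trans (Finset.subset_insert a Ω)) h
    have i3 : pr Ω p A ≤ pr Ω p (fun P => A (insert a P)) := by
      apply pr_mono Ω h0 (hpr.trans h1)
      intro P hP h
      exact hA _ _ (Finset.subset_insert a P) (Finset.insert_subset_insert a hP) h
    rw [cond p, cond r]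
    have k1 : 0 ≤ r := h0.trans hpr
    have k2 : 0 ≤ 1 - r := by linarith
    nlinarith [mul_nonneg (sub_nonneg.2 hpr) (sub_nonneg.2 i3), mul_le_mul_of_nonneg_left i1 k1,
      mul_le_mul_of_nonneg_left i2 k2]

end E8helper13.RD
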