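import Pool.Agent.E8helper13.RD.Defs
import Pool.Agent.E8helper13.RD.Model

/-!
The lower side: for `p ≤ c / n`, `c < 1`, no reconstructible set of linear size.
-/

open Finset RandomDistances

namespace E8helper13.RD

set_option linter.unusedSectionVars false
set_option linter.unusedDecidableInType false
set_option linter.unusedFintypeInType false

lemma pr_markov {α ι : Type*} [DecidableEq α] (Ω : Finset α) {p : ℝ} (h0 : 0 ≤ p) (h1 : p ≤ 1)
    (s : Finset ι) (A : ι → Finset α → Prop) (E : Finset α → Prop) (a : ℝ)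
    (h : ∀ P, P ⊆ Ω → E P → ∃ t : Finset ι, t ⊆ s ∧ (∀ i ∈ t, A i P) ∧ a ≤ t.card) :
    a * pr Ω p E ≤ ∑ i ∈ s, pr Ω p (A i) := by
  classical
  have e1 : ∀ i ∈ s, pr Ω p (A i)
      = ∑ P ∈ Ω.powerset, if A i P then p ^ P.card * (1 - p) ^ (Ω.card - P.card) else 0 :=
    fun i _ => pr_eq Ω p (A i)
  rw [Finset.sum_congr rfl e1, Finset.sum_comm, pr_eq, Finset.mul_sum]
  refine Finset.sum_le_sum ?_
  intro P hP
  rw [Finset.mem_powerset] at hP
  have hw := wt_nonneg Ω h0 h1 P
  rw [← Finset.sum_filter, Finset.sum_const, nsmul_eq_mul]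
  by_cases hE : E P
  · rw [if_pos hE]
    refine mul_le_mul_of_nonneg_right ?_ hw
    obtain ⟨t, ht, hA, hc⟩ := h P hP hE
    refine hc.trans ?_
    have : t ⊆ s.filter (fun i => A i P) := fun i hi => Finset.mem_filter.2 ⟨ht hi, hA i hi⟩
    exact_mod_cast Finset.card_le_card this
  · rw [if_neg hE, mul_zero]
    exact mul_nonneg (Nat.cast_nonneg _) hw

variable {n d : ℕ}

/-- Two points of a reconstructible set are connected. -/
lemma connected_of_reconstructible (hd : 1 ≤ d) (v : Fin n → EuclideanSpace ℝ (Fin d))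
    {P : Finset (Sym2 (Fin n))} {U : Finset (Fin n)} (hU : Reconstructible v P U) {i j : Fin n}
    (hi : i ∈ U) (hj : j ∈ U) : (SimpleGraph.fromEdgeSet (P : Set (Sym2 (Fin n)))).Reachable i j := by
  classical
  by_contra hcon
  set G := SimpleGraph.fromEdgeSet (P : Set (Sym2 (Fin n))) with hG
  have : Nonempty (Fin d) := ⟨⟨0, hd⟩⟩
  have : Nontrivial (EuclideanSpace ℝ (Fin d)) := inferInstance
  obtain ⟨w, hw⟩ := NormedSpace.exists_lt_norm ℝ (EuclideanSpace ℝ (Fin d)) (2 * ‖v i - v j‖)
  have h := hU (fun k => v k + if G.Reachable i k then w else 0) (by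
    intro a b hab
    by_cases hab' : a = b
    · subst hab'; simp
    have hadj : G.Adj a b := by
      rw [hG, SimpleGraph.fromEdgeSet_adj]
      exact ⟨hab, hab'⟩
    by_cases ha : G.Reachable i a
    · have hb : G.Reachable i b := ha.trans hadj.reachable
      simp only [if_pos ha, if_pos hb, dist_add_right]
    · have hb : ¬ G.Reachable i b := fun h => ha (h.trans hadj.symm.reachable)
      simp only [if_neg ha, if_neg hb, add_zero]) i hi j hj
  simp only [if_pos (SimpleGraph.Reachable.refl (G := G) i), if_neg hcon, add_zero] at h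
  rw [dist_eq_norm, dist_eq_norm] at h
  have h2 : ‖w‖ ≤ ‖v i + w - v j‖ + ‖v i - v j‖ := by
    calc ‖w‖ = ‖(v i + w - v j) - (v i - v j)‖ := by congr 1; abel
      _ ≤ _ := norm_sub_le _ _
  rw [h] at h2
  linarith

/-- Number of walks in the complete graph. -/
lemma card_walks_le (k : ℕ) : ∀ i : Fin n,
    ∑ j, ((⊤ : SimpleGraph (Fin n)).finsetWalkLength k i j).card ≤ n ^ k := by
  classical
  induction k with
  | zero =>
    intro i
    rw [Finset.sum_eq_single i]
    · simp [SimpleGraph.finsetWalkLength]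
    · intro j _ hj
      simp [SimpleGraph.finsetWalkLength, hj.symm]
    · simp
  | succ k ih =>
    intro i
    have h1 : ∀ j, ((⊤ : SimpleGraph (Fin n)).finsetWalkLength (k + 1) i j).card
        ≤ ∑ w : (⊤ : SimpleGraph (Fin n)).neighborSet i,
          ((⊤ : SimpleGraph (Fin n)).finsetWalkLength k w j).card := by
      intro j
      rw [SimpleGraph.finsetWalkLength]
      refine Finset.card_biUnion_le.trans ?_
      refine Finset.sum_le_sum ?_
      intro w _
      rw [Finset.card_map]
    refine (Finset.sum_le_sum fun j _ => h1 j).trans ?_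
    rw [Finset.sum_comm]
    refine (Finset.sum_le_sum fun (w : (⊤ : SimpleGraph (Fin n)).neighborSet i) _ => ih w.1).trans ?_
    rw [Finset.sum_const, smul_eq_mul, pow_succ, mul_comm]
    refine Nat.mul_le_mul_left _ ?_
    rw [Finset.card_univ]
    refine (Fintype.card_subtype_le _).trans ?_
    simp

/-- The mean number of vertices connected to `i`. -/
lemma sum_pr_reachable_le {p : ℝ} (h0 : 0 ≤ p) (h1 : p ≤ 1) (i : Fin n) :
    ∑ j, pr (pairs n) p (fun P => (SimpleGraph.fromEdgeSet (P : Set (Sym2 (Fin n)))).Reachable i j)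
      ≤ ∑ k ∈ Finset.range n, ((n : ℝ) * p) ^ k := by
  classical
  -- bound for a fixed pair
  have hpair : ∀ j, pr (pairs n) p (fun P => (SimpleGraph.fromEdgeSet (P : Set (Sym2 (Fin n)))).Reachable i j)
      ≤ ∑ k ∈ Finset.range n, ((⊤ : SimpleGraph (Fin n)).finsetWalkLength k i j).card * p ^ k := by
    intro j
    refine le_trans (pr_mono _ h0 h1 (B := fun P => ∃ k ∈ Finset.range n,
      ∃ w ∈ ((⊤ : SimpleGraph (Fin n)).finsetWalkLength k i j), w.IsPath ∧ w.edges.toFinset ⊆ P) ?_) ?_
    · intro P _ hr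
      obtain ⟨w, hw⟩ := hr.exists_isPath
      refine ⟨w.length, ?_, w.mapLe le_top, ?_, ?_, ?_⟩
      · rw [Finset.mem_range]
        have := hw.length_lt
        rwa [Fintype.card_fin] at this
      · rw [SimpleGraph.mem_finsetWalkLength_iff]
        simp
      · exact hw.mapLe le_top
      · rw [SimpleGraph.Walk.edges_mapLe_eq_edges]
        intro e he
        rw [List.mem_toFinset] at he
        have := w.edges_subset_edgeSet he
        rw [SimpleGraph.edgeSet_fromEdgeSet] at this
        exact this.1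
    · refine (pr_exists_le _ h0 h1 _ _).trans ?_
      refine Finset.sum_le_sum ?_
      intro k _
      refine (pr_exists_le _ h0 h1 _ (fun (w : (⊤ : SimpleGraph (Fin n)).Walk i j) P =>
        w.IsPath ∧ w.edges.toFinset ⊆ P)).trans ?_
      rw [← nsmul_eq_mul, ← Finset.sum_const]
      refine Finset.sum_le_sum ?_
      intro w hw
      rw [SimpleGraph.mem_finsetWalkLength_iff] at hw
      by_cases hp : w.IsPath
      · have hsub : w.edges.toFinset ⊆ pairs n := by
          intro e he
          rw [List.mem_toFinset] at he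
          have := w.edges_subset_edgeSet he
          unfold pairs
          rw [Finset.mem_filter]
          exact ⟨Finset.mem_univ _, SimpleGraph.not_isDiag_of_mem_edgeSet _ this⟩
        have hc : w.edges.toFinset.card = k := by
          rw [List.toFinset_card_of_nodup hp.isTrail.edges_nodup, SimpleGraph.Walk.length_edges, hw]
        have := pr_cyl (Ω := pairs n) (I := w.edges.toFinset) (J := ∅) hsub (Finset.empty_subset _)
          (Finset.disjoint_empty_right _) p
        rw [hc] at this
        simp only [Finset.card_empty, pow_zero, mul_one] at this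
        rw [← this]
        refine pr_mono _ h0 h1 ?_
        rintro P _ ⟨_, h⟩
        exact ⟨h, Finset.disjoint_empty_left _⟩
      · have hz : pr (pairs n) p (fun P => w.IsPath ∧ w.edges.toFinset ⊆ P) = 0 := by
          rw [pr_eq]
          refine Finset.sum_eq_zero ?_
          intro P _
          rw [if_neg (fun h => hp h.1)]
        rw [hz]
        exact pow_nonneg h0 _
  refine (Finset.sum_le_sum fun j _ => hpair j).trans ?_
  rw [Finset.sum_comm]
  refine Finset.sum_le_sum ?_
  intro k _
  rw [← Finset.sum_mul, mul_pow]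
  refine mul_le_mul_of_nonneg_right ?_ (pow_nonneg h0 _)
  exact_mod_cast card_walks_le k i

/-- **Lower side.** -/
theorem lower (hd : 1 ≤ d) {c δ : ℝ} (hc0 : 0 ≤ c) (hc : c < 1) (hδ : 0 < δ) (hn : 0 < n)
    (v : Fin n → EuclideanSpace ℝ (Fin d)) {p : ℝ} (h0 : 0 ≤ p) (h1 : p ≤ 1) (hp : p ≤ c / n) :
    prob n p (fun P => ∃ U : Finset (Fin n), Reconstructible v P U ∧ δ * n ≤ U.card)
      ≤ 1 / ((1 - c) * δ ^ 2 * n) := by
  classical
  have hn' : (0 : ℝ) < n := by exact_mod_cast hn
  have hnp : (n : ℝ) * p ≤ c := by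
    rw [le_div_iff₀ hn'] at hp
    linarith
  have hnp0 : 0 ≤ (n : ℝ) * p := by positivity
  have hmark := pr_markov (pairs n) h0 h1 (Finset.univ : Finset (Fin n × Fin n))
    (fun q P => (SimpleGraph.fromEdgeSet (P : Set (Sym2 (Fin n)))).Reachable q.1 q.2)
    (fun P => ∃ U : Finset (Fin n), Reconstructible v P U ∧ δ * n ≤ U.card) ((δ * n) ^ 2) (by
      rintro P _ ⟨U, hU, hUc⟩
      refine ⟨U ×ˢ U, Finset.subset_univ _, ?_, ?_⟩
      · rintro ⟨a, b⟩ hab
        rw [Finset.mem_product] at hab
        exact connected_of_reconstructible hd v hU hab.1 hab.2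
      · rw [Finset.card_product]
        push_cast
        rw [sq]
        exact mul_self_le_mul_self (by positivity) hUc)
  rw [Fintype.sum_prod_type] at hmark
  have hgeom : ∑ k ∈ Finset.range n, ((n : ℝ) * p) ^ k ≤ 1 / (1 - c) := by
    have h2 : ∑ k ∈ Finset.range n, ((n : ℝ) * p) ^ k ≤ ∑ k ∈ Finset.range n, c ^ k :=
      Finset.sum_le_sum fun k _ => pow_le_pow_left₀ hnp0 hnp k
    refine h2.trans ?_
    rw [le_div_iff₀ (by linarith), geom_sum_mul_neg]
    have : 0 ≤ c ^ n := pow_nonneg hc0 _
    linarith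
  have hsum : ∑ i : Fin n, ∑ j : Fin n,
      pr (pairs n) p (fun P => (SimpleGraph.fromEdgeSet (P : Set (Sym2 (Fin n)))).Reachable i j)
      ≤ n * (1 / (1 - c)) := by
    calc _ ≤ ∑ _i : Fin n, (1 / (1 - c)) :=
          Finset.sum_le_sum fun i _ => (sum_pr_reachable_le h0 h1 i).trans hgeom
      _ = n * (1 / (1 - c)) := by rw [Finset.sum_const, Finset.card_univ, Fintype.card_fin, nsmul_eq_mul]
  have h3 := hmark.trans hsum
  have hc1 : 0 < 1 - c := by linarith
  show pr (pairs n) p (fun P => ∃ U : Finset (Fin n), Reconstructible v P U ∧ δ * n ≤ U.card) ≤ _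
  rw [le_div_iff₀ (by positivity)]
  rw [mul_one_div, le_div_iff₀ hc1] at h3
  have h4 : pr (pairs n) p (fun P => ∃ U : Finset (Fin n), Reconstructible v P U ∧ δ * n ≤ U.card)
      * ((1 - c) * δ ^ 2 * n) * n ≤ 1 * n := by
    calc _ = (δ * n) ^ 2 * pr (pairs n) p (fun P => ∃ U : Finset (Fin n), Reconstructible v P U ∧
          δ * n ≤ U.card) * (1 - c) := by ring
      _ ≤ n := h3
      _ = 1 * n := by ring
  exact le_of_mul_le_mul_right h4 hn'

end E8helper13.RD
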