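import Pool.Agent.E8helper13.RD.Model

/-!
Double sampling: the probability that a `p`-random set misses a large set of a family is at most
`(1-p)^M` times the mean number of traces of the family on a `2p`-random set.
-/

open Finset

namespace E8helper13.RD

set_option linter.unusedSectionVars false
set_option linter.unusedDecidableInType false

variable {α : Type*} [DecidableEq α]

open Classical in
/-- The traces on `Y` of the family `bad x`. -/
noncomputable def traces {X : Type*} (bad : X → Finset α) (Y : Finset α) : Finset (Finset α) :=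
  Y.powerset.filter (fun T => ∃ x, bad x ∩ Y = T)

lemma sum_inner (D : Finset α) (R : Finset α) (hR : R ⊆ D) (p : ℝ) :
    ∑ Q ∈ D.powerset, p ^ Q.card * (1 - 2 * p) ^ (D.card - Q.card) * 2 ^ (R ∩ Q).card
      = (1 - p) ^ (D.card - R.card) := by
  classical
  have key := Finset.prod_add (fun e => p * (if e ∈ R then (2 : ℝ) else 1))
    (fun _ => 1 - 2 * p) D
  have lhs : ∏ i ∈ D, (p * (if i ∈ R then (2 : ℝ) else 1) + (1 - 2 * p)) = (1 - p) ^ (D.card - R.card) := by
    have : ∀ i ∈ D, (p * (if i ∈ R then (2 : ℝ) else 1) + (1 - 2 * p)) = if i ∈ D \ R then 1 - p else 1 := by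
      intro i hi
      by_cases h : i ∈ R
      · have : i ∉ D \ R := by simp [h]
        rw [if_pos h, if_neg this]; ring
      · have : i ∈ D \ R := by simp [h, hi]
        rw [if_neg h, if_pos this]; ring
    rw [Finset.prod_congr rfl this, Finset.prod_ite_mem, Finset.inter_eq_right.2 Finset.sdiff_subset,
      Finset.prod_const, Finset.card_sdiff_of_subset hR]
  rw [lhs] at key
  rw [key]
  refine Finset.sum_congr rfl ?_
  intro Q hQ
  rw [Finset.mem_powerset] at hQ
  rw [Finset.prod_mul_distrib, Finset.prod_const, Finset.prod_const, Finset.card_sdiff_of_subset hQ,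
    Finset.prod_ite, Finset.prod_const, Finset.prod_const_one, mul_one]
  rw [show Q.filter (fun x => x ∈ R) = R ∩ Q by ext; simp [and_comm]]
  ring

/-- Splitting `Y` into two halves. -/
lemma sum_swap (Ω : Finset α) (f : Finset α → Finset α → ℝ) :
    ∑ P ∈ Ω.powerset, ∑ Q ∈ (Ω \ P).powerset, f P Q
      = ∑ Y ∈ Ω.powerset, ∑ P ∈ Y.powerset, f P (Y \ P) := by
  rw [Finset.sum_sigma', Finset.sum_sigma']
  refine Finset.sum_bij' (fun s _ => ⟨s.1 ∪ s.2, s.1⟩) (fun t _ => ⟨t.2, t.1 \ t.2⟩) ?_ ?_ ?_ ?_ ?_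
  · rintro ⟨P, Q⟩ h
    simp only [Finset.mem_sigma, Finset.mem_powerset] at h ⊢
    exact ⟨Finset.union_subset h.1 (h.2.trans Finset.sdiff_subset), Finset.subset_union_left⟩
  · rintro ⟨Y, P⟩ h
    simp only [Finset.mem_sigma, Finset.mem_powerset] at h ⊢
    exact ⟨h.2.trans h.1, Finset.sdiff_subset_sdiff h.1 (Finset.Subset.refl _)⟩
  · rintro ⟨P, Q⟩ h
    simp only [Finset.mem_sigma, Finset.mem_powerset] at h
    have : (P ∪ Q) \ P = Q := by
      ext a
      simp only [Finset.mem_sdiff, Finset.mem_union]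
      constructor
      · rintro ⟨h1 | h1, h2⟩
        · exact absurd h1 h2
        · exact h1
      · intro h1
        exact ⟨Or.inr h1, (Finset.mem_sdiff.1 (h.2 h1)).2⟩
    simp [this]
  · rintro ⟨Y, P⟩ h
    simp only [Finset.mem_sigma, Finset.mem_powerset] at h
    have : P ∪ Y \ P = Y := Finset.union_sdiff_of_subset h.2
    simp [this]
  · rintro ⟨P, Q⟩ h
    simp only [Finset.mem_sigma, Finset.mem_powerset] at h
    have : (P ∪ Q) \ P = Q := by
      ext a
      simp only [Finset.mem_sdiff, Finset.mem_union]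
      constructor
      · rintro ⟨h1 | h1, h2⟩
        · exact absurd h1 h2
        · exact h1
      · intro h1
        exact ⟨Or.inr h1, (Finset.mem_sdiff.1 (h.2 h1)).2⟩
    simp [this]

theorem double_sampling {X : Type*} (Ω : Finset α) (bad : X → Finset α) (hb : ∀ x, bad x ⊆ Ω)
    (M : ℕ) {p : ℝ} (h0 : 0 ≤ p) (h1 : p ≤ 1 / 2) :
    pr Ω p (fun P => ∃ x, M ≤ (bad x).card ∧ Disjoint (bad x) P) ≤
      (1 - p) ^ M * ∑ Y ∈ Ω.powerset, (2 * p) ^ Y.card * (1 - 2 * p) ^ (Ω.card - Y.card)
        * ((traces bad Y).card : ℝ) := by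
  classical
  set E : Finset α → Prop := fun P => ∃ x, M ≤ (bad x).card ∧ Disjoint (bad x) P with hE
  -- the chosen bad set
  let R : Finset α → Finset α := fun P => if h : E P then bad h.choose else ∅
  have hR1 : ∀ P, E P → M ≤ (R P).card := by
    intro P h
    simp only [R, dif_pos h]
    exact h.choose_spec.1
  have hR2 : ∀ P, E P → Disjoint (R P) P := by
    intro P h
    simp only [R, dif_pos h]
    exact h.choose_spec.2
  have hR3 : ∀ P, R P ⊆ Ω := by
    intro P
    by_cases h : E P
    · simp only [R, dif_pos h]; exact hb _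
    · simp only [R, dif_neg h]; exact Finset.empty_subset _
  have hR4 : ∀ P Y, E P → R P ∩ Y ∈ traces bad Y := by
    intro P Y h
    unfold traces
    rw [Finset.mem_filter, Finset.mem_powerset]
    refine ⟨Finset.inter_subset_right, ?_⟩
    simp only [R, dif_pos h]
    exact ⟨_, rfl⟩
  have hp1 : 0 ≤ 1 - p := by linarith
  have hp2 : 1 - p ≤ 1 := by linarith
  have h2p : 0 ≤ 1 - 2 * p := by linarith
  -- step 1
  have step1 : ∀ P ∈ Ω.powerset, (if E P then p ^ P.card * (1 - p) ^ (Ω.card - P.card) else 0) ≤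
      (1 - p) ^ M * ∑ Q ∈ (Ω \ P).powerset, (if E P then
        p ^ (P.card + Q.card) * (1 - 2 * p) ^ (Ω.card - (P.card + Q.card)) * 2 ^ (R P ∩ Q).card else 0) := by
    intro P hP
    rw [Finset.mem_powerset] at hP
    by_cases hEP : E P
    · simp only [if_pos hEP]
      have hRD : R P ⊆ Ω \ P := by
        intro a ha
        exact Finset.mem_sdiff.2 ⟨hR3 P ha, Finset.disjoint_left.1 (hR2 P hEP) ha⟩
      have := sum_inner (Ω \ P) (R P) hRD p
      have hcP : P.card ≤ Ω.card := Finset.card_le_card hP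
      have e : ∑ Q ∈ (Ω \ P).powerset,
          p ^ (P.card + Q.card) * (1 - 2 * p) ^ (Ω.card - (P.card + Q.card)) * 2 ^ (R P ∩ Q).card
          = p ^ P.card * (1 - p) ^ ((Ω \ P).card - (R P).card) := by
        rw [← this, Finset.mul_sum]
        refine Finset.sum_congr rfl ?_
        intro Q hQ
        rw [Finset.card_sdiff_of_subset hP, pow_add, Nat.sub_sub]
        ring
      rw [e]
      have hc1 : (R P).card ≤ (Ω \ P).card := Finset.card_le_card hRD
      rw [Finset.card_sdiff_of_subset hP] at hc1 ⊢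
      have hM := hR1 P hEP
      have : (1 - p) ^ (Ω.card - P.card) ≤ (1 - p) ^ (M + (Ω.card - P.card - (R P).card)) :=
        pow_le_pow_of_le_one hp1 hp2 (by omega)
      calc p ^ P.card * (1 - p) ^ (Ω.card - P.card)
          ≤ p ^ P.card * (1 - p) ^ (M + (Ω.card - P.card - (R P).card)) :=
            mul_le_mul_of_nonneg_left this (pow_nonneg h0 _)
        _ = (1 - p) ^ M * (p ^ P.card * (1 - p) ^ (Ω.card - P.card - (R P).card)) := by
            rw [pow_add]; ring
    · simp only [if_neg hEP]
      simp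
  rw [pr_eq]
  refine le_trans (Finset.sum_le_sum step1) ?_
  rw [← Finset.mul_sum]
  refine mul_le_mul_of_nonneg_left ?_ (pow_nonneg hp1 _)
  rw [sum_swap Ω (fun P Q => if E P then
        p ^ (P.card + Q.card) * (1 - 2 * p) ^ (Ω.card - (P.card + Q.card)) * 2 ^ (R P ∩ Q).card else 0)]
  refine Finset.sum_le_sum ?_
  intro Y hY
  rw [Finset.mem_powerset] at hY
  -- step 2
  have e1 : ∀ P ∈ Y.powerset, (if E P then
        p ^ (P.card + (Y \ P).card) * (1 - 2 * p) ^ (Ω.card - (P.card + (Y \ P).card))
          * 2 ^ (R P ∩ (Y \ P)).card else 0)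
      = (p ^ Y.card * (1 - 2 * p) ^ (Ω.card - Y.card)) * (if E P then (2 : ℝ) ^ (R P ∩ Y).card else 0) := by
    intro P hP
    rw [Finset.mem_powerset] at hP
    by_cases hEP : E P
    · rw [if_pos hEP, if_pos hEP]
      have hc : P.card + (Y \ P).card = Y.card := by
        rw [Finset.card_sdiff_of_subset hP]
        have := Finset.card_le_card hP
        omega
      have hi : R P ∩ (Y \ P) = R P ∩ Y := by
        ext a
        simp only [Finset.mem_inter, Finset.mem_sdiff]
        constructor
        · rintro ⟨a1, a2, a3⟩; exact ⟨a1, a2⟩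
        · rintro ⟨a1, a2⟩; exact ⟨a1, a2, Finset.disjoint_left.1 (hR2 P hEP) a1⟩
      rw [hc, hi]
    · rw [if_neg hEP, if_neg hEP]; ring
  rw [Finset.sum_congr rfl e1, ← Finset.mul_sum]
  have e2 : ∑ P ∈ Y.powerset, (if E P then (2 : ℝ) ^ (R P ∩ Y).card else 0)
      ≤ 2 ^ Y.card * (traces bad Y).card := by
    rw [← Finset.sum_filter]
    have hmaps : ∀ P ∈ Y.powerset.filter (fun P => E P), R P ∩ Y ∈ traces bad Y := by
      intro P hP
      exact hR4 P Y (Finset.mem_filter.1 hP).2
    rw [← Finset.sum_fiberwise_of_maps_to hmaps]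
    have : ∀ T ∈ traces bad Y, ∑ P ∈ (Y.powerset.filter (fun P => E P)).filter (fun P => R P ∩ Y = T),
        (2 : ℝ) ^ (R P ∩ Y).card ≤ 2 ^ Y.card := by
      intro T hT
      have hTY : T ⊆ Y := by
        unfold traces at hT
        exact Finset.mem_powerset.1 (Finset.mem_filter.1 hT).1
      have hsub : (Y.powerset.filter (fun P => E P)).filter (fun P => R P ∩ Y = T) ⊆ (Y \ T).powerset := by
        intro P hP
        rw [Finset.mem_filter, Finset.mem_filter, Finset.mem_powerset] at hP
        rw [Finset.mem_powerset]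
        intro a ha
        refine Finset.mem_sdiff.2 ⟨hP.1.1 ha, ?_⟩
        intro haT
        rw [← hP.2] at haT
        exact Finset.disjoint_left.1 (hR2 P hP.1.2) (Finset.mem_inter.1 haT).1 ha
      have e3 : ∑ P ∈ (Y.powerset.filter (fun P => E P)).filter (fun P => R P ∩ Y = T),
          (2 : ℝ) ^ (R P ∩ Y).card
          = (((Y.powerset.filter (fun P => E P)).filter (fun P => R P ∩ Y = T)).card : ℝ) * 2 ^ T.card := by
        rw [Finset.sum_congr rfl (g := fun _ => (2 : ℝ) ^ T.card), Finset.sum_const, nsmul_eq_mul]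
        intro P hP
        rw [(Finset.mem_filter.1 hP).2]
      rw [e3]
      have hc := Finset.card_le_card hsub
      rw [Finset.card_powerset, Finset.card_sdiff_of_subset hTY] at hc
      have hcT := Finset.card_le_card hTY
      calc (((Y.powerset.filter (fun P => E P)).filter (fun P => R P ∩ Y = T)).card : ℝ) * 2 ^ T.card
          ≤ ((2 ^ (Y.card - T.card) : ℕ) : ℝ) * 2 ^ T.card :=
            mul_le_mul_of_nonneg_right (by exact_mod_cast hc) (by positivity)
        _ = 2 ^ Y.card := by
            push_cast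
            rw [← pow_add]
            congr 1
            omega
    refine le_trans (Finset.sum_le_sum this) ?_
    rw [Finset.sum_const, nsmul_eq_mul, mul_comm]
  calc (p ^ Y.card * (1 - 2 * p) ^ (Ω.card - Y.card)) * ∑ P ∈ Y.powerset, (if E P then (2 : ℝ) ^ (R P ∩ Y).card else 0)
      ≤ (p ^ Y.card * (1 - 2 * p) ^ (Ω.card - Y.card)) * (2 ^ Y.card * (traces bad Y).card) :=
        mul_le_mul_of_nonneg_left e2 (mul_nonneg (pow_nonneg h0 _) (pow_nonneg h2p _))
    _ = (2 * p) ^ Y.card * (1 - 2 * p) ^ (Ω.card - Y.card) * (traces bad Y).card := by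
        rw [mul_pow]; ring

end E8helper13.RD
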