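import Pool.Agent.E8helper13.RD.Defs
import Pool.Agent.E8helper13.RD.Count
import Pool.Agent.E8helper13.RD.Det

/-!
The upper side: for `p ≥ C / n` almost all of the points are reconstructible.
-/

open Finset MvPolynomial RandomDistances

namespace E8helper13.RD

set_option linter.unusedSectionVars false
set_option linter.unusedDecidableInType false
set_option linter.unusedFintypeInType false

variable {n d : ℕ}

lemma prob_eq_pr (p : ℝ) (A : Finset (Sym2 (Fin n)) → Prop) : prob n p A = pr (pairs n) p A := rfl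

/-- the polynomial of a pair -/
noncomputable def pol (v : Fin n → EuclideanSpace ℝ (Fin d)) (e : Sym2 (Fin n)) :
    MvPolynomial (Fin n × Fin d) ℝ :=
  Sym2.lift ⟨fun i j => ∑ k, (X (i, k) - X (j, k)) ^ 2 - C (dist (v i) (v j) ^ 2), by
    intro i j
    dsimp only
    rw [dist_comm (v i) (v j)]
    congr 1
    refine Finset.sum_congr rfl ?_
    intro k _
    ring⟩ e

lemma pol_deg (v : Fin n → EuclideanSpace ℝ (Fin d)) (e : Sym2 (Fin n)) : (pol v e).totalDegree ≤ 2 := by
  induction e using Sym2.ind with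
  | _ i j =>
    unfold pol
    rw [Sym2.lift_mk]
    refine (MvPolynomial.totalDegree_sub _ _).trans ?_
    rw [MvPolynomial.totalDegree_C]
    refine max_le ?_ (by norm_num)
    refine MvPolynomial.totalDegree_finsetSum_le ?_
    intro k _
    refine (MvPolynomial.totalDegree_pow _ _).trans ?_
    have : (X (i, k) - X (j, k) : MvPolynomial (Fin n × Fin d) ℝ).totalDegree ≤ 1 := by
      refine (MvPolynomial.totalDegree_sub _ _).trans ?_
      simp
    omega

/-- the configuration with given coordinates -/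
noncomputable def conf (y : Fin n × Fin d → ℝ) : Fin n → EuclideanSpace ℝ (Fin d) :=
  fun i => WithLp.toLp 2 (fun k => y (i, k))

lemma eval_pol (v : Fin n → EuclideanSpace ℝ (Fin d)) (y : Fin n × Fin d → ℝ) (i j : Fin n) :
    eval y (pol v s(i, j)) = dist (conf y i) (conf y j) ^ 2 - dist (v i) (v j) ^ 2 := by
  unfold pol
  rw [Sym2.lift_mk]
  simp only [map_sub, map_sum, map_pow, eval_X, eval_C]
  congr 1
  rw [EuclideanSpace.dist_eq, Real.sq_sqrt (Finset.sum_nonneg fun _ _ => sq_nonneg _)]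
  refine Finset.sum_congr rfl ?_
  intro k _
  rw [Real.dist_eq, sq_abs]
  rfl

lemma eval_pol_ne (v : Fin n → EuclideanSpace ℝ (Fin d)) (y : Fin n × Fin d → ℝ) (i j : Fin n) :
    eval y (pol v s(i, j)) ≠ 0 ↔ ¬ Pres v (conf y) i j := by
  rw [eval_pol]
  unfold Pres
  rw [not_iff_not, sub_eq_zero]
  constructor
  · intro h
    exact (pow_left_inj₀ dist_nonneg dist_nonneg (by norm_num)).1 h
  · intro h; rw [h]

lemma conf_surj (x : Fin n → EuclideanSpace ℝ (Fin d)) : ∃ y, conf y = x := by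
  refine ⟨fun ik => x ik.1 ik.2, ?_⟩
  funext i
  ext k
  rfl

open Classical in
/-- the bad pairs -/
noncomputable def bad (v : Fin n → EuclideanSpace ℝ (Fin d)) (y : Fin n × Fin d → ℝ) :
    Finset (Sym2 (Fin n)) := (pairs n).filter (fun e => eval y (pol v e) ≠ 0)

lemma mem_bad (v : Fin n → EuclideanSpace ℝ (Fin d)) (y : Fin n × Fin d → ℝ) (e : Sym2 (Fin n)) :
    e ∈ bad v y ↔ e ∈ pairs n ∧ eval y (pol v e) ≠ 0 := by
  classical
  unfold bad
  rw [Finset.mem_filter]

lemma mem_pairs (i j : Fin n) : s(i, j) ∈ pairs n ↔ i ≠ j := by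
  unfold pairs
  simp

lemma card_pairs_le : ((pairs n).card : ℝ) ≤ n ^ 2 / 2 := by
  have h : (pairs n).card = n.choose 2 := by
    have := Sym2.card_subtype_not_diag (α := Fin n)
    rw [Fintype.card_fin] at this
    rw [← this, Fintype.card_subtype]
    unfold pairs
    congr
  rw [h, Nat.cast_choose_two]
  nlinarith [(Nat.cast_nonneg n : (0 : ℝ) ≤ n)]

/-- The random part: for `p ≤ 1/2` and `p n` large the two bad events are unlikely, and outside them a
large set is reconstructible. -/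
theorem main_bound (v : Fin n → EuclideanSpace ℝ (Fin d)) (hn : 0 < n) {τ ε p : ℝ} (hτ : 0 < τ) (hτ1 : τ ≤ 1)
    (hε : ε = τ ^ 2 / (32 * (d + 3))) (h0 : 0 ≤ p) (h1 : p ≤ 1 / 2)
    (hK1 : d * Real.log (8 / ε) + 2 ≤ (n * p) * (ε / 2))
    (hK2 : (∑ j ∈ Finset.range (d + 2), ((n : ℝ) * p) ^ j) * Real.exp (-((n * p) * (τ / 2)))
      ≤ Real.exp (-(12 / τ))) :
    1 - (1 / 2) ^ n ≤ pr (pairs n) p (fun P => ∃ U : Finset (Fin n), Reconstructible v P U ∧
      (n : ℝ) ≤ U.card + (d + 2) * (τ * n)) := by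
  classical
  have hn' : (0 : ℝ) < n := by exact_mod_cast hn
  have hn1 : (1 : ℝ) ≤ n := by exact_mod_cast hn
  have hd3 : (0 : ℝ) < d + 3 := by positivity
  have hεpos : 0 < ε := by rw [hε]; positivity
  have hε1 : ε ≤ 1 := by
    rw [hε, div_le_one (by positivity)]
    have : τ ^ 2 ≤ 1 := pow_le_one₀ hτ.le hτ1
    have : (0 : ℝ) ≤ d := Nat.cast_nonneg d
    linarith
  have hp1 : p ≤ 1 := by linarith
  have hfr : Module.finrank ℝ (EuclideanSpace ℝ (Fin d)) = d := finrank_euclideanSpace_fin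
  obtain ⟨L, hL, hLc⟩ := exists_goodFlat v (t := τ * n) (by positivity)
  rw [hfr, Fintype.card_fin] at hLc
  set M : ℕ := ⌊ε * n ^ 2⌋₊ + 1 with hM
  have hMge : ε * n ^ 2 ≤ M := by
    rw [hM]; push_cast
    exact (Nat.lt_floor_add_one _).le
  set m : ℝ := τ / 4 * n with hm
  set s : ℝ := τ / (4 * (d + 3)) * n with hs
  have hspos : 0 < s := by rw [hs]; positivity
  have hmpos : 0 ≤ m := by rw [hm]; positivity
  have hms : m * s = 2 * (ε * n ^ 2) := by
    rw [hm, hs, hε]; field_simp; ring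
  have hds : ((d : ℝ) + 3) * s = τ / 4 * n := by
    rw [hs]; field_simp
  -- event A
  have evA : pr (pairs n) p (fun P => ∃ y, M ≤ (bad v y).card ∧ Disjoint (bad v y) P) ≤ Real.exp (-(2 * n)) := by
    set u : ℝ := 1 - ε / 8 with hu
    have hu0 : 0 < u := by rw [hu]; linarith
    have hu1 : u < 1 := by rw [hu]; linarith
    have h2 := miss_le (pairs n) (pol v) (pol_deg v) (bad v) (mem_bad v) M h0 h1 hu0 hu1
    refine h2.trans ?_
    have e1 : (1 - p) ^ M ≤ Real.exp (-(p * (ε * n ^ 2))) := by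
      have h3 : 1 - p ≤ Real.exp (-p) := by
        have := Real.add_one_le_exp (-p)
        linarith
      calc (1 - p) ^ M ≤ (Real.exp (-p)) ^ M := pow_le_pow_left₀ (by linarith) h3 _
        _ = Real.exp (-(p * M)) := by rw [← Real.exp_nat_mul]; ring_nf
        _ ≤ Real.exp (-(p * (ε * n ^ 2))) := by
            rw [Real.exp_le_exp]
            have := mul_le_mul_of_nonneg_left hMge h0
            linarith
    have e2 : (1 / (1 - u)) ^ Fintype.card (Fin n × Fin d) = Real.exp (n * (d * Real.log (8 / ε))) := by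
      rw [Fintype.card_prod, Fintype.card_fin, Fintype.card_fin]
      have : 1 / (1 - u) = Real.exp (Real.log (8 / ε)) := by
        rw [Real.exp_log (by positivity), hu]
        have : (1 : ℝ) - (1 - ε / 8) = ε / 8 := by ring
        rw [this, one_div_div]
      rw [this, ← Real.exp_nat_mul]
      push_cast
      ring_nf
    have e3 : 1 / u ^ 2 - 1 ≤ ε / 2 := by
      have hu2 : 0 < u ^ 2 := by positivity
      rw [sub_le_iff_le_add, div_le_iff₀ hu2, hu]
      nlinarith [mul_pos hεpos hεpos, mul_nonneg hεpos.le (sub_nonneg.2 hε1),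
        mul_nonneg (mul_pos hεpos hεpos).le hεpos.le]
    have e4 : Real.exp (2 * p * (1 / u ^ 2 - 1) * (pairs n).card) ≤ Real.exp (p * (ε * n ^ 2) / 2) := by
      rw [Real.exp_le_exp]
      have h5 : 2 * p * (1 / u ^ 2 - 1) ≤ p * ε := by
        have := mul_le_mul_of_nonneg_left e3 (by linarith : 0 ≤ 2 * p)
        linarith
      have h6 := card_pairs_le (n := n)
      calc 2 * p * (1 / u ^ 2 - 1) * (pairs n).card ≤ p * ε * (pairs n).card :=
            mul_le_mul_of_nonneg_right h5 (Nat.cast_nonneg _)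
        _ ≤ p * ε * (n ^ 2 / 2) := mul_le_mul_of_nonneg_left h6 (by positivity)
        _ = p * (ε * n ^ 2) / 2 := by ring
    rw [e2]
    calc (1 - p) ^ M * (Real.exp (n * (d * Real.log (8 / ε))) *
          Real.exp (2 * p * (1 / u ^ 2 - 1) * (pairs n).card))
        ≤ Real.exp (-(p * (ε * n ^ 2))) * (Real.exp (n * (d * Real.log (8 / ε))) *
          Real.exp (p * (ε * n ^ 2) / 2)) := by
          refine mul_le_mul e1 (mul_le_mul_of_nonneg_left e4 (Real.exp_pos _).le) (by positivity)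
            (Real.exp_pos _).le
      _ = Real.exp (-(p * (ε * n ^ 2)) + (n * (d * Real.log (8 / ε)) + p * (ε * n ^ 2) / 2)) := by
          rw [Real.exp_add, Real.exp_add]
      _ ≤ Real.exp (-(2 * n)) := by
          rw [Real.exp_le_exp]
          have := mul_le_mul_of_nonneg_left hK1 hn'.le
          have e7 : (n : ℝ) * (n * p * (ε / 2)) = p * (ε * n ^ 2) / 2 := by ring
          have e8 : (n : ℝ) * (d * Real.log (8 / ε) + 2) = n * (d * Real.log (8 / ε)) + 2 * n := by ring
          linarith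
  -- event B
  have evB : pr (pairs n) p (fun P => ∃ B, Detached v L P B ∧ (B.card : ℝ) ≤ 2 * m ∧ m < B.card)
      ≤ Real.exp (-(2 * n)) := by
    have h2 := pr_exists_detached_le v (t := τ * n) (m := m) (r := 12 / τ) hL (pairs n)
      (fun a b hab => (mem_pairs a b).2 hab) h0 hp1 (by positivity) (by
        rw [hfr, Fintype.card_fin]
        refine le_trans (le_of_eq ?_) hK2
        congr 2
        rw [hm]; ring)
    refine h2.trans ?_
    rw [Fintype.card_fin]
    have e1 : (12 / τ) * m = 3 * n := by rw [hm]; field_simp; ring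
    rw [e1]
    have e2 : (2 : ℝ) ^ n ≤ Real.exp n := by
      have : (2 : ℝ) ≤ Real.exp 1 := by
        have := Real.add_one_le_exp (1 : ℝ)
        linarith
      calc (2 : ℝ) ^ n ≤ (Real.exp 1) ^ n := pow_le_pow_left₀ (by norm_num) this _
        _ = Real.exp n := by rw [← Real.exp_nat_mul]; ring_nf
    calc (2 : ℝ) ^ n * Real.exp (-(3 * n)) ≤ Real.exp n * Real.exp (-(3 * n)) :=
          mul_le_mul_of_nonneg_right e2 (Real.exp_pos _).le
      _ = Real.exp (-(2 * n)) := by rw [← Real.exp_add]; ring_nf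
  -- combine
  have hcompl := pr_add_compl (pairs n) p (fun P => (∃ y, M ≤ (bad v y).card ∧ Disjoint (bad v y) P) ∨
    (∃ B, Detached v L P B ∧ (B.card : ℝ) ≤ 2 * m ∧ m < B.card))
  have hor := pr_or_le (pairs n) h0 hp1 (fun P => (∃ y, M ≤ (bad v y).card ∧ Disjoint (bad v y) P))
    (fun P => (∃ B, Detached v L P B ∧ (B.card : ℝ) ≤ 2 * m ∧ m < B.card))
  have hsmall : 2 * Real.exp (-(2 * n)) ≤ (1 / 2 : ℝ) ^ n := by
    have e1 : Real.exp (-2) ≤ 1 / 4 := by
      have h3 : (2 : ℝ) ≤ Real.exp 1 := by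
        have := Real.add_one_le_exp (1 : ℝ)
        linarith
      have h4 : Real.exp 2 = Real.exp 1 * Real.exp 1 := by rw [← Real.exp_add]; norm_num
      have h5 : (4 : ℝ) ≤ Real.exp 2 := by rw [h4]; nlinarith
      rw [Real.exp_neg, inv_eq_one_div]
      exact one_div_le_one_div_of_le (by norm_num) h5
    have e2 : Real.exp (-(2 * n)) ≤ (1 / 4 : ℝ) ^ n := by
      calc Real.exp (-(2 * n)) = (Real.exp (-2)) ^ n := by rw [← Real.exp_nat_mul]; ring_nf
        _ ≤ (1 / 4 : ℝ) ^ n := pow_le_pow_left₀ (Real.exp_pos _).le e1 _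
    have e3 : (1 / 4 : ℝ) ^ n = (1 / 2) ^ n * (1 / 2) ^ n := by rw [← mul_pow]; norm_num
    have e4 : (1 / 2 : ℝ) ^ n ≤ 1 / 2 := by
      calc (1 / 2 : ℝ) ^ n ≤ (1 / 2) ^ 1 := pow_le_pow_of_le_one (by norm_num) (by norm_num) hn
        _ = 1 / 2 := by norm_num
    have e5 : (0 : ℝ) < (1 / 2) ^ n := by positivity
    have e6 : (1 / 2 : ℝ) ^ n * (1 / 2) ^ n ≤ (1 / 2) ^ n * (1 / 2) :=
      mul_le_mul_of_nonneg_left e4 e5.le
    linarith
  refine le_trans ?_ (pr_mono (pairs n) h0 hp1 (A := fun P => ¬ ((∃ y, M ≤ (bad v y).card ∧ Disjoint (bad v y) P) ∨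
    (∃ B, Detached v L P B ∧ (B.card : ℝ) ≤ 2 * m ∧ m < B.card))) ?_)
  · linarith
  · intro P hPsub hgood
    rw [not_or] at hgood
    obtain ⟨hA, hB⟩ := hgood
    have c1 : m + ((Module.finrank ℝ (EuclideanSpace ℝ (Fin d)) : ℕ) + 3 : ℝ) * s < τ * n := by
      rw [hfr, hds, hm]
      have := mul_pos hτ hn'
      linarith
    have c2 : ∀ x : Fin n → EuclideanSpace ℝ (Fin d), (∀ i j, s(i, j) ∈ P → Pres v x i j) →
        ∀ N : ℕ, (∃ F : Finset (Sym2 (Fin n)), F.card = N ∧ ∀ i j, s(i, j) ∈ F ↔ ¬ Pres v x i j) →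
        2 * (N : ℝ) ≤ m * s := by
      intro x hx N hN
      obtain ⟨F, hF1, hF2⟩ := hN
      obtain ⟨y, rfl⟩ := conf_surj x
      have hFbad : F = bad v y := by
        ext e
        induction e using Sym2.ind with
        | _ i j =>
          rw [hF2, mem_bad, eval_pol_ne, mem_pairs]
          constructor
          · intro h
            refine ⟨?_, h⟩
            rintro rfl
            exact h (Pres.refl _ _ _)
          · exact fun h => h.2
      have hlt : (bad v y).card < M := by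
        by_contra hcon
        push Not at hcon
        apply hA
        refine ⟨y, hcon, ?_⟩
        rw [Finset.disjoint_left]
        intro e he heP
        induction e using Sym2.ind with
        | _ i j =>
          rw [mem_bad, eval_pol_ne] at he
          exact he.2 (hx i j heP)
      rw [← hF1, hFbad, hms]
      have h3 : (bad v y).card ≤ ⌊ε * (n : ℝ) ^ 2⌋₊ := by omega
      have h4 : ((bad v y).card : ℝ) ≤ ε * n ^ 2 :=
        (Nat.cast_le.2 h3).trans (Nat.floor_le (by positivity))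
      linarith
    have c3 : ∀ B, Detached v L P B → (B.card : ℝ) ≤ 2 * m → (B.card : ℝ) ≤ m := by
      intro B hdet hB2
      by_contra hcon
      push Not at hcon
      exact hB ⟨B, hdet, hB2, hcon⟩
    obtain ⟨U, hU1, hU2⟩ := exists_common v hL hspos hmpos P c1 c2 c3
    refine ⟨U, hU2, ?_⟩
    have : ((d + 1 : ℕ) : ℝ) = d + 1 := by push_cast; ring
    rw [this] at hLc
    have h6 := mul_pos hτ hn'
    have h5 : m ≤ τ * n := by rw [hm]; linarith
    linarith

/-- **Upper side.** -/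
theorem upper (d : ℕ) {δ : ℝ} (hδ : 0 < δ) : ∃ C : ℝ, 0 < C ∧ ∃ n₀ : ℕ, ∀ n : ℕ, n₀ ≤ n →
    ∀ v : Fin n → EuclideanSpace ℝ (Fin d), ∀ p : ℝ, C / n ≤ p → p ≤ 1 →
      1 - (1 / 2) ^ n ≤ prob n p (fun P => ∃ U : Finset (Fin n), Reconstructible v P U ∧
        (1 - δ) * n ≤ U.card) := by
  set τ : ℝ := min 1 (δ / (d + 2)) with hτdef
  have hd2 : (0 : ℝ) < d + 2 := by positivity
  have hτ : 0 < τ := lt_min one_pos (by positivity)
  have hτ1 : τ ≤ 1 := min_le_left _ _
  have hτδ : (d + 2) * τ ≤ δ := by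
    have : τ ≤ δ / (d + 2) := min_le_right _ _
    rw [le_div_iff₀ hd2] at this
    linarith
  set ε : ℝ := τ ^ 2 / (32 * (d + 3)) with hε
  have hεpos : 0 < ε := by rw [hε]; positivity
  -- the constant for the second condition
  have htend : Filter.Tendsto (fun y : ℝ => (∑ j ∈ Finset.range (d + 2), y ^ j) * Real.exp (-(y * (τ / 2))))
      Filter.atTop (nhds 0) := by
    have h1 : ∀ j ∈ Finset.range (d + 2), Filter.Tendsto
        (fun y : ℝ => y ^ j * Real.exp (-(y * (τ / 2)))) Filter.atTop (nhds 0) := by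
      intro j _
      have h2 := (isLittleO_pow_exp_pos_mul_atTop (k := j) (b := τ / 2) (by positivity)).tendsto_div_nhds_zero
      refine h2.congr ?_
      intro y
      rw [Real.exp_neg, div_eq_mul_inv, mul_comm (τ / 2) y]
    have h3 := tendsto_finsetSum (Finset.range (d + 2)) h1
    rw [Finset.sum_const_zero] at h3
    refine h3.congr ?_
    intro y
    rw [Finset.sum_mul]
  have hev := htend.eventually (Iic_mem_nhds (Real.exp_pos (-(12 / τ))))
  obtain ⟨K₂, hK₂⟩ := Filter.eventually_atTop.1 hev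
  set K₁ : ℝ := (d * Real.log (8 / ε) + 2) / (ε / 2) with hK₁
  set K : ℝ := max 1 (max K₁ K₂) with hK
  have hKpos : 0 < K := lt_of_lt_of_le one_pos (le_max_left _ _)
  refine ⟨K, hKpos, ⌈2 * K⌉₊ + 1, ?_⟩
  intro n hn v p hp hp1
  have hnpos : 0 < n := by omega
  have hn' : (0 : ℝ) < n := by exact_mod_cast hnpos
  have hn2K : 2 * K ≤ n := by
    have h1 : (⌈2 * K⌉₊ : ℝ) ≤ n := by exact_mod_cast (by omega : ⌈2 * K⌉₊ ≤ n)
    exact (Nat.le_ceil _).trans h1
  -- reduce to p ≤ 1/2
  set p' : ℝ := min p (1 / 2) with hp'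
  have hKn : K / n ≤ p' := by
    refine le_min hp ?_
    rw [div_le_iff₀ hn']
    linarith
  have hp'0 : 0 ≤ p' := le_trans (by positivity) hKn
  have hy : K ≤ n * p' := by
    rw [div_le_iff₀ hn'] at hKn
    linarith
  have hb := main_bound v hnpos hτ hτ1 hε hp'0 (min_le_right _ _)
    (by
      have h1 : K₁ ≤ n * p' := le_trans (le_trans (le_max_left _ _) (le_max_right _ _)) hy
      rw [hK₁, div_le_iff₀ (by positivity)] at h1
      exact h1)
    (hK₂ _ (le_trans (le_trans (le_max_right _ _) (le_max_right _ _)) hy))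
  refine hb.trans ?_
  rw [prob_eq_pr]
  refine le_trans (pr_mono (pairs n) hp'0 (by have := min_le_right p (1 / 2 : ℝ); linarith)
    (B := fun P => ∃ U : Finset (Fin n), Reconstructible v P U ∧ (1 - δ) * n ≤ U.card) ?_)
    (pr_mono_p hp'0 (min_le_left _ _) hp1 ?_)
  · rintro P _ ⟨U, h1, h2⟩
    refine ⟨U, h1, ?_⟩
    have := mul_le_mul_of_nonneg_right hτδ hn'.le
    nlinarith
  · rintro P Q hPQ _ ⟨U, h1, h2⟩
    exact ⟨U, fun x hx => h1 x (fun i j h => hx i j (hPQ h)), h2⟩

end E8helper13.RD
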